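import Pool.Agent.H15.KM7.Defs

/-!
# The local line and the label determine the line
-/

set_option autoImplicit false

namespace Pool.KM7

open Finset Real
open Pool.Agent.H49.Ent Pool.Agent.H32.Dense Pool.STK Pool.KA

/-- The coordinates of a section are injective. -/
lemma Sec.co_inj (q : Sec) {x y : Fin 2 → ℝ} (h : q.co x = q.co y) : x = y := by
  have h0 := congrFun h 0
  have h1 := congrFun h 1
  have p1 : (0 : ℝ) < 2 ^ q.h := by positivity
  have p2 : (0 : ℝ) < 2 ^ q.p := by positivity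
  have e0 : ∀ z : Fin 2 → ℝ,
      q.co z 0 = 2 ^ q.h * (2 ^ q.p * z (ix q.c) + q.a * z (iy q.c)) := fun _ => rfl
  have e1 : ∀ z : Fin 2 → ℝ, q.co z 1 = 2 ^ q.h * z (iy q.c) := fun _ => rfl
  rw [e0, e0] at h0
  rw [e1, e1] at h1
  have hy : x (iy q.c) = y (iy q.c) := mul_left_cancel₀ p1.ne' h1
  have h2 := mul_left_cancel₀ p1.ne' h0
  rw [hy] at h2
  have hx : x (ix q.c) = y (ix q.c) := by
    have h3 : (2 : ℝ) ^ q.p * x (ix q.c) = 2 ^ q.p * y (ix q.c) := by linarith
    exact mul_left_cancel₀ p2.ne' h3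
  funext i
  rcases hc : q.c with _ | _
  · rw [hc] at hx hy
    have i0 : ix false = 0 := rfl
    have i1 : iy false = 1 := rfl
    rw [i0] at hx
    rw [i1] at hy
    fin_cases i
    · exact hx
    · exact hy
  · rw [hc] at hx hy
    have i0 : ix true = 1 := rfl
    have i1 : iy true = 0 := rfl
    rw [i0] at hx
    rw [i1] at hy
    fin_cases i
    · exact hy
    · exact hx

/-- The line is determined by the label and the fractional parts of the coordinates. -/
theorem lab_inj {w : ℕ} {G : Fam 2 w} {q : G.Ω → Sec} {ω ω' : G.Ω}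
    (hL : Lab G q ω = Lab G q ω')
    (hx : (fun i => Int.fract ((q ω).co (G.x ω) i)) = fun i => Int.fract ((q ω').co (G.x ω') i))
    (hd : (fun i => Int.fract ((q ω).co (fun i => G.d ω i / 2 ^ w) i)) =
      fun i => Int.fract ((q ω').co (fun i => G.d ω' i / 2 ^ w) i)) :
    G.T ω = G.T ω' ∧ q ω = q ω' ∧ G.l ω = G.l ω' := by
  unfold Lab at hL
  have hT : G.T ω = G.T ω' := (Prod.ext_iff.mp (Prod.ext_iff.mp hL).1).1
  have hq : q ω = q ω' := (Prod.ext_iff.mp (Prod.ext_iff.mp hL).1).2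
  have hlx : (q ω).lb (G.x ω) = (q ω').lb (G.x ω') := (Prod.ext_iff.mp (Prod.ext_iff.mp hL).2).1
  have hld : (q ω).lb (fun i => G.d ω i / 2 ^ w) = (q ω').lb (fun i => G.d ω' i / 2 ^ w) :=
    (Prod.ext_iff.mp (Prod.ext_iff.mp hL).2).2
  have cx : (q ω).co (G.x ω) = (q ω').co (G.x ω') := by
    funext i
    have h1 : ⌊(q ω).co (G.x ω) i⌋ = ⌊(q ω').co (G.x ω') i⌋ := congrFun hlx i
    have h2 := congrFun hx i
    rw [← Int.floor_add_fract ((q ω).co (G.x ω) i), ← Int.floor_add_fract ((q ω').co (G.x ω') i),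
      h1, h2]
  have cd : (q ω).co (fun i => G.d ω i / 2 ^ w) = (q ω').co (fun i => G.d ω' i / 2 ^ w) := by
    funext i
    have h1 : ⌊(q ω).co (fun i => G.d ω i / 2 ^ w) i⌋ =
        ⌊(q ω').co (fun i => G.d ω' i / 2 ^ w) i⌋ := congrFun hld i
    have h2 := congrFun hd i
    rw [← Int.floor_add_fract ((q ω).co (fun i => G.d ω i / 2 ^ w) i),
      ← Int.floor_add_fract ((q ω').co (fun i => G.d ω' i / 2 ^ w) i), h1, h2]
  rw [hq] at cx cd
  have hx' := Sec.co_inj _ cx
  have hd' := Sec.co_inj _ cd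
  have pw : (2 : ℝ) ^ w ≠ 0 := by positivity
  have hdd : G.d ω = G.d ω' := by
    funext i
    have h1 := congrFun hd' i
    field_simp at h1
    exact h1
  refine ⟨hT, hq, Prod.ext ?_ hdd⟩
  funext i
  have h1 := congrFun hx' i
  unfold Fam.x Fam.t at h1
  rw [hT, hdd] at h1
  change G.u ω i = G.u ω' i
  linarith

/-- **(LINJ)** The local line and the local side information determine the line, the window, the
section and the side information. -/
theorem linj {w : ℕ} (G : Fam 2 w) (q : G.Ω → Sec) (L : ℕ) (τ : G.Ω → ℕ)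
    (hτ : ∀ ω, τ ω < 2 ^ L) :
    Det G.p (fun ω => ((loc G q L τ hτ).l ω, (loc G q L τ hτ).Z ω))
      (fun ω => ((G.l ω, G.Z ω), (G.T ω, q ω))) := by
  intro ω ω' _ _ h
  have h1 := (Prod.ext_iff.mp h).1
  have h2 := (Prod.ext_iff.mp h).2
  have hu := (Prod.ext_iff.mp h1).1
  have hd := (Prod.ext_iff.mp h1).2
  have hL : Lab G q ω = Lab G q ω' := (Prod.ext_iff.mp h2).1
  have hZ : G.Z ω = G.Z ω' := (Prod.ext_iff.mp h2).2
  obtain ⟨a, b, c⟩ := lab_inj hL hu hd
  dsimp only
  rw [a, b, c, hZ]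

end Pool.KM7
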