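import Pool.Agent.H15.KM7.Stmts
import Pool.Agent.H70.KM7.Nng
import Pool.Agent.H85.TG.Defs2

/-!
# The local problems without hidden variables, the cost of the blocks with live windows
-/

set_option autoImplicit false

namespace Pool.KM7

open Finset Real
open Pool.Agent.H49.Ent Pool.Agent.H32.Dense Pool.STK Pool.KA

/-- **The loss of `N` blocks is at most their cost**, in standard local problems, without hidden
variables. -/
def PNU (κ : ℝ) (A : ℕ) {Y : Type} (f : Y → ℕ → ℝ) (Λ : ℝ) (K N : ℕ) (δ : ℝ) : Prop :=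
  ∀ (G : Fam 2 (K * N)) (y : ℕ → G.Ω → Y), Adm K N G (fun _ => ()) y →
    (∀ ω i, |G.u ω i| ≤ 1) → ∀ s ≤ A * (K * N), ∀ q : G.Ω → Sec,
    (∀ ω, 0 < G.p ω → (q ω).c = false ∧ (q ω).h = K * N ∧ (q ω).p = s ∧
      |(q ω).a| ≤ 4 * 2 ^ s) →
    Get κ (K * N + s) (G.trc 0 (Nat.zero_le _))
      (Psi κ G q - cst f Λ K N G (fun _ => ()) y - δ * (K * N : ℕ))

/-- The live strings of a block of `L` digits: at most `η L / 2` windows of `K` digits are dead. -/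
def Lv (L K : ℕ) (η : ℝ) (m : ℕ → ℝ) (t : ℕ) : Prop :=
  (nbad m L K η t 0 L : ℝ) ≤ η / 2 * L

/-- The cost of a block of `L` digits. -/
noncomputable def fL (L K : ℕ) (η Λ : ℝ) : BL L → ℕ → ℝ :=
  fbl L (Lv L K η) (3 * (L * Real.log 2)) Λ

/-- **(BASG)** The base case from the label inequality for times with live windows. -/
def BASGStmt : Prop :=
  ∀ b : ℝ, 1 ≤ b → Pool.LK.LKG 2 b → ∀ (κ : ℝ), 0 < κ → κ ≤ 1 → ∀ (A : ℕ), ∃ η : ℝ, 0 < η ∧
    ∀ K : ℕ, 3 / 2 ^ K ≤ η → ∃ Λ : ℝ, 1 ≤ Λ ∧ ∃ L₀ : ℕ, ∀ L ≥ L₀,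
      PNU κ A (fL L K η Λ) Λ L 1 (2 * κ)

end Pool.KM7
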