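import Pool.Agent.H58.KMF.Joint
import Pool.Agent.H40.KMF.Basg
import Pool.Agent.H15.KM7.All
import Pool.Agent.H15.KM7.Sta
import Pool.Agent.H73.KQ1.Q1

/-!
# The maximal inequality in dimension three from the label inequality for live times
-/

set_option autoImplicit false

namespace Pool.KMF

/-- **(LKG) implies the maximal entropy inequality in dimension three.** -/
theorem mb_three {b : ℝ} (hb : 1 ≤ b) (h : Pool.LK.LKG 2 b) : Pool.KFIN.MB 2 3 :=
  mb_of_lkg hb (Pool.KM7.basg_thm Pool.KM7.lbl_all) Pool.KM7.stepU_all Pool.KM7.towU_all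
    Pool.KM7.sta_thm Pool.KM7.fin_thm h

/-- **(LKG) implies Q1 for `n = 3`.** -/
theorem q1_three {b : ℝ} (hb : 1 ≤ b) (h : Pool.LK.LKG 2 b) {q : ENNReal}
    (hq : ENNReal.ofReal (3 / 2) < q) : Pool.KFIN.Q1 2 q :=
  Pool.KFIN.q1_three (mb_three hb h) hq

end Pool.KMF
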