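import Pool.Agent.H85.TG.Defs2

/-!
# The label form of the entropy inequality for times with live windows

The statement is `Pool.LK.LKG`; this file only gives it a second name.
-/

set_option autoImplicit false

namespace Pool.KMF

/-- The label inequality for times with live windows. -/
abbrev LKG := Pool.LK.LKG

end Pool.KMF
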