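import Pool.Agent.H58.KMF.Energy

/-!
# Laws with a large atom have a small entropy
-/

set_option autoImplicit false

namespace Pool.KMF

open Finset Real
open Pool.Agent.H49.Ent Pool.Agent.H32.Dense Pool.STK

variable {Ω S : Type} [Fintype Ω]

/-- The entropy of a law with an atom of mass at least `1 - c`. -/
lemma atom_le {q : Ω → ℝ} (hq : ∀ ω, 0 ≤ q ω) (h1 : ∑ ω, q ω = 1) (X : Ω → S) (F : Finset S)
    (hF : ∀ ω, 0 < q ω → X ω ∈ F) {N : ℕ} (hN : F.card ≤ N) (hN0 : 0 < N) {c : ℝ} (hc : 0 < c)
    (hc2 : c ≤ 1 / 2) (s : S) (hs : 1 - c ≤ law q X s) :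
    H q X ≤ Real.sqrt c * (4 + Real.log N) := by
  classical
  have hN' : (0 : ℝ) < N := by exact_mod_cast hN0
  have hN1 : (1 : ℝ) ≤ N := by exact_mod_cast hN0
  set k : S → ℝ := fun x => if x = s then 1 - c else if x ∈ F then c / N else 0 with hk
  have hk0 : ∀ x, 0 ≤ k x := by
    intro x
    rw [hk]
    dsimp only
    split_ifs
    · linarith
    · positivity
    · exact le_rfl
  have e0 : H q X = CH q X (fun _ => ()) := by
    unfold CH
    rw [H_const h1, sub_zero]
    exact H_congr hq (fun a b _ _ h => (Prod.ext_iff.mp h).1) (fun a b _ _ h => Prod.ext h rfl)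
  have h := CH_le_cross hq h1 X (fun _ => ()) (fun _ => k)
    (fun ω hω => by
      rw [hk]
      dsimp only
      by_cases hx : X ω = s
      · rw [if_pos hx]; linarith
      · rw [if_neg hx, if_pos (hF ω hω)]; positivity)
    (fun _ x => hk0 x)
    (fun ω _ G => by
      have g1 : ∀ x ∈ G, k x ≤ (if x = s then 1 - c else 0) + (if x ∈ F then c / N else 0) := by
        intro x _
        rw [hk]
        dsimp only
        by_cases hx : x = s
        · rw [if_pos hx, if_pos hx]
          have : 0 ≤ (if x ∈ F then c / (N : ℝ) else 0) := by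
            split_ifs
            · positivity
            · exact le_rfl
          linarith
        · rw [if_neg hx, if_neg hx, zero_add]
      refine (Finset.sum_le_sum g1).trans ?_
      rw [Finset.sum_add_distrib]
      have g2 : ∑ x ∈ G, (if x = s then 1 - c else 0) ≤ 1 - c := by
        rw [Finset.sum_ite_eq']
        split_ifs
        · exact le_rfl
        · linarith
      have g3 : ∑ x ∈ G, (if x ∈ F then c / (N : ℝ) else 0) ≤ c := by
        rw [← Finset.sum_filter, Finset.sum_const, nsmul_eq_mul]
        have g4 : (G.filter (fun x => x ∈ F)).card ≤ N :=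
          (Finset.card_le_card fun x hx => (Finset.mem_filter.mp hx).2).trans hN
        have g5 : ((G.filter (fun x => x ∈ F)).card : ℝ) ≤ N := by exact_mod_cast g4
        calc ((G.filter (fun x => x ∈ F)).card : ℝ) * (c / N) ≤ N * (c / N) :=
              mul_le_mul_of_nonneg_right g5 (by positivity)
          _ = c := by field_simp
      linarith)
  rw [e0]
  refine h.trans ?_
  -- evaluation
  have hls : law q X s = ∑ ω, (if X ω = s then q ω else 0) := by
    unfold law
    rfl
  have hlog1 : -Real.log (1 - c) ≤ 2 * c := by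
    have h2 := Real.one_sub_inv_le_log_of_pos (show 0 < 1 - c by linarith)
    have h3 : (1 - c)⁻¹ ≤ 1 + 2 * c := by
      rw [inv_le_comm₀ (by linarith) (by linarith)]
      rw [inv_le_comm₀ (by linarith) (by linarith)]
      have h4 : 1 ≤ (1 + 2 * c) * (1 - c) := by nlinarith
      rw [← one_div, div_le_iff₀ (by linarith)]
      exact h4
    linarith
  have hlog2 : 0 ≤ -Real.log (c / N) := by
    have : c / N ≤ 1 := by
      rw [div_le_one hN']
      linarith
    have := Real.log_nonpos (by positivity) this
    linarith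
  have hex : Ex q (fun ω => -Real.log (k (X ω))) ≤
      -Real.log (1 - c) + c * (-Real.log (c / N)) := by
    have g1 : Ex q (fun ω => -Real.log (k (X ω))) ≤
        Ex q (fun ω => -Real.log (1 - c) + (1 - (if X ω = s then (1 : ℝ) else 0)) *
          (-Real.log (c / N))) := by
      refine Ex_mono hq fun ω hω => ?_
      by_cases hx : X ω = s
      · rw [if_pos hx, hk]
        dsimp only
        rw [if_pos hx]
        linarith
      · rw [if_neg hx, hk]
        dsimp only
        rw [if_neg hx, if_pos (hF ω hω)]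
        have : 0 ≤ -Real.log (1 - c) := by
          have := Real.log_nonpos (show 0 ≤ 1 - c by linarith) (by linarith)
          linarith
        linarith
    refine g1.trans ?_
    have g2 : Ex q (fun ω => -Real.log (1 - c) + (1 - (if X ω = s then (1 : ℝ) else 0)) *
          (-Real.log (c / N))) = -Real.log (1 - c) + (1 - law q X s) * (-Real.log (c / N)) := by
      unfold Ex
      have g3 : ∀ ω, q ω * (-Real.log (1 - c) + (1 - (if X ω = s then (1 : ℝ) else 0)) *
          (-Real.log (c / N))) = q ω * (-Real.log (1 - c) - Real.log (c / N)) -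
            (if X ω = s then q ω else 0) * (-Real.log (c / N)) := by
        intro ω
        split_ifs <;> ring
      rw [Finset.sum_congr rfl fun ω _ => g3 ω, Finset.sum_sub_distrib, ← Finset.sum_mul,
        ← Finset.sum_mul, h1, ← hls]
      ring
    rw [g2]
    have g4 : (1 - law q X s) * (-Real.log (c / N)) ≤ c * (-Real.log (c / N)) :=
      mul_le_mul_of_nonneg_right (by linarith) hlog2
    linarith
  refine hex.trans ?_
  have hs0 : 0 < Real.sqrt c := Real.sqrt_pos.2 hc
  have hss : Real.sqrt c * Real.sqrt c = c := Real.mul_self_sqrt hc.le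
  have hs1 : Real.sqrt c ≤ 1 := by
    rw [Real.sqrt_le_one]
    linarith
  have hcs : c ≤ Real.sqrt c := by
    calc c = Real.sqrt c * Real.sqrt c := hss.symm
      _ ≤ Real.sqrt c * 1 := mul_le_mul_of_nonneg_left hs1 hs0.le
      _ = Real.sqrt c := mul_one _
  have hlc : -Real.log c ≤ 2 / Real.sqrt c := by
    have h2 : Real.log c = 2 * Real.log (Real.sqrt c) := by
      rw [Real.log_sqrt hc.le]
      ring
    have h3 := Real.log_le_sub_one_of_pos (inv_pos.2 hs0)
    rw [Real.log_inv] at h3
    rw [h2, div_eq_mul_inv]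
    linarith
  have h5 : c * (-Real.log c) ≤ 2 * Real.sqrt c := by
    calc c * (-Real.log c) ≤ c * (2 / Real.sqrt c) := mul_le_mul_of_nonneg_left hlc hc.le
      _ = Real.sqrt c * Real.sqrt c * (2 / Real.sqrt c) := by rw [hss]
      _ = 2 * Real.sqrt c := by field_simp
  have h6 : -Real.log (c / N) = -Real.log c + Real.log N := by
    rw [Real.log_div hc.ne' hN'.ne']
    ring
  have h7 : 0 ≤ Real.log N := Real.log_nonneg hN1
  rw [h6]
  have h8 : c * Real.log N ≤ Real.sqrt c * Real.log N := mul_le_mul_of_nonneg_right hcs h7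
  nlinarith [h5, h8, hlog1, hcs]

/-- For small `c` the entropy of a law on `2 ^ K` values with an atom `≥ 1 - c` is less than
`x K`. -/
lemma exists_atom {K : ℕ} (hK : 0 < K) {x : ℝ} (hx : 0 < x) :
    ∃ c : ℝ, 0 < c ∧ c ≤ 1 / 2 ∧ ∀ (Ω S : Type) [Fintype Ω] (q : Ω → ℝ), (∀ ω, 0 ≤ q ω) →
      ∑ ω, q ω = 1 → ∀ (X : Ω → S) (F : Finset S), (∀ ω, 0 < q ω → X ω ∈ F) → F.card ≤ 2 ^ K →
      ∀ s, 1 - c < law q X s → H q X < x * K := by
  have hK' : (0 : ℝ) < K := by exact_mod_cast hK
  set y : ℝ := min (1 / 2) (x * K / (2 * (4 + K))) with hy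
  have hy0 : 0 < y := by rw [hy]; positivity
  have hy1 : y ≤ 1 / 2 := min_le_left _ _
  have hy2 : y ≤ x * K / (2 * (4 + K)) := min_le_right _ _
  refine ⟨y ^ 2, by positivity, by nlinarith, ?_⟩
  intro Ω S _ q hq h1 X F hF hcard s hs
  have h := atom_le hq h1 X F hF hcard (by positivity) (show 0 < y ^ 2 by positivity)
    (by nlinarith) s hs.le
  have h2 : Real.log ((2 ^ K : ℕ) : ℝ) ≤ K := by
    push_cast
    rw [Real.log_pow]
    have : Real.log 2 ≤ 1 := by
      have := Real.log_two_lt_d9
      linarith
    nlinarith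
  rw [Real.sqrt_sq hy0.le] at h
  have h3 : y * (4 + Real.log ((2 ^ K : ℕ) : ℝ)) ≤ x * K / (2 * (4 + K)) * (4 + K) :=
    mul_le_mul hy2 (by linarith) (by
      have : 0 ≤ Real.log ((2 ^ K : ℕ) : ℝ) := Real.log_nonneg (by
        push_cast
        exact one_le_pow₀ one_le_two)
      linarith) (by positivity)
  have h4 : x * K / (2 * (4 + K)) * (4 + K) = x * K / 2 := by
    field_simp
  rw [h4] at h3
  have h5 : 0 < x * K := by positivity
  linarith

end Pool.KMF
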