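import Pool.Agent.H58.KMF.Mx
import Pool.Agent.H58.KMF.Atom
import Pool.Agent.H40.KMF.Chn

/-!
# One block: the own kernel and the conditional rates
-/

set_option autoImplicit false

namespace Pool.KMF

open Finset Real
open Pool.Agent.H49.Ent Pool.Agent.H32.Dense Pool.STK Pool.KA Pool.KAL

variable {m J : ℕ}

section law

variable {Ω S T : Type} [Fintype Ω]

lemma law_true {p : Ω → ℝ} (X : Ω → S) (s : S) (f : Ω → ℝ)
    (h : ∀ ω, (X ω = s → f ω = p ω) ∧ (X ω ≠ s → f ω = 0)) : law p X s = ∑ ω, f ω := by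
  classical
  unfold law
  refine Finset.sum_congr rfl fun ω _ => ?_
  by_cases hx : X ω = s
  · rw [if_pos hx, (h ω).1 hx]
  · rw [if_neg hx, (h ω).2 hx]

/-- Two labels which cut the same set. -/
lemma law_iff (p : Ω → ℝ) (X : Ω → S) (Y : Ω → T) (s : S) (t : T)
    (h : ∀ ω, 0 ≠ p ω → (X ω = s ↔ Y ω = t)) : law p X s = law p Y t := by
  classical
  unfold law
  refine Finset.sum_congr rfl fun ω _ => ?_
  by_cases h0 : 0 = p ω
  · rw [← h0]
    simp
  · by_cases hx : X ω = s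
    · rw [if_pos hx, if_pos ((h ω h0).1 hx)]
    · rw [if_neg hx, if_neg fun hy => hx ((h ω h0).2 hy)]

/-- The masses of the strings. -/
lemma sum_law_mul (q : Ω → ℝ) (X : Ω → ℕ) {n : ℕ} (hX : ∀ ω, X ω < n) (f : ℕ → ℝ) :
    ∑ t ∈ range n, law q X t * f t = Ex q (fun ω => f (X ω)) := by
  classical
  unfold law Ex
  simp only [Finset.sum_mul]
  rw [Finset.sum_comm]
  refine Finset.sum_congr rfl fun ω _ => ?_
  rw [Finset.sum_eq_single (X ω)]
  · rw [if_pos rfl]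
  · intro t _ ht
    rw [if_neg (Ne.symm ht), zero_mul]
  · intro h
    exact absurd (mem_range.2 (hX ω)) h

/-- The image of a law under division. -/
lemma lowk_law (q : Ω → ℝ) (X : Ω → ℕ) (a s : ℕ) :
    lowk (law q X) a s = law q (fun ω => X ω / 2 ^ a) s := by
  classical
  unfold lowk law
  rw [Finset.sum_comm]
  refine Finset.sum_congr rfl fun ω _ => ?_
  by_cases h : X ω / 2 ^ a = s
  · rw [if_pos h, Finset.sum_eq_single (X ω % 2 ^ a)]
    · have e : s * 2 ^ a + X ω % 2 ^ a = X ω := by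
        rw [← h]
        exact Nat.div_add_mod' _ _
      rw [if_pos e.symm]
    · intro r hr hne
      rw [if_neg]
      intro he
      apply hne
      rw [he, mul_comm, Nat.mul_add_mod, Nat.mod_eq_of_lt (mem_range.1 hr)]
    · intro hr
      exact absurd (mem_range.2 (Nat.mod_lt _ (by positivity))) hr
  · rw [if_neg h]
    refine Finset.sum_eq_zero fun r hr => ?_
    rw [if_neg]
    intro he
    apply h
    rw [he, mul_comm, Nat.mul_add_div (by positivity), Nat.div_eq_of_lt (mem_range.1 hr), add_zero]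

/-- The law of a finer label given a coarser one. -/
lemma law_cond_fine {p : Ω → ℝ} (W : Ω → T) (X : Ω → S) {ω : Ω}
    (h : ∀ υ, X υ = X ω → W υ = W ω) :
    law (cond p W (W ω)) X (X ω) = law p X (X ω) / law p W (W ω) := by
  classical
  unfold law Pool.Agent.H49.Ent.cond
  rw [Finset.sum_div]
  refine Finset.sum_congr rfl fun υ _ => ?_
  by_cases hx : X υ = X ω
  · rw [if_pos hx, if_pos hx, if_pos (h υ hx)]
    rfl
  · rw [if_neg hx, if_neg hx, zero_div]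

end law

/-! ### The digits of the time -/

lemma T1_add (F : Fam m J) (i k : ℕ) (ω : F.Ω) :
    F.T1 (i + k) ω / 2 ^ ((J - i) - (J - (i + k))) = F.T1 i ω := by
  unfold Fam.T1
  rw [Nat.div_div_eq_div_mul, ← pow_add]
  congr 2
  omega

lemma vw_all (F : Fam m J) (i k : ℕ) {ω ω' : F.Ω} (h : Vw F (i + k) ω = Vw F (i + k) ω') :
    Vw F i ω = Vw F i ω' := by
  have h1 : F.T1 (i + k) ω = F.T1 (i + k) ω' := (Prod.ext_iff.mp h).1
  have h2 : (F.l ω, F.Z ω) = (F.l ω', F.Z ω') := (Prod.ext_iff.mp h).2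
  refine Prod.ext ?_ h2
  show F.T1 i ω = F.T1 i ω'
  rw [← T1_add F i k, ← T1_add F i k ω', h1]

lemma vw_det (F : Fam m J) (i : ℕ) : Det F.p (Vw F (i + 1)) (Vw F i) :=
  fun _ _ _ _ h => vw_all F i 1 h

open Classical in
/-- The values of the next label. -/
noncomputable def nx (F : Fam m J) (i k : ℕ) (ω : F.Ω) :
    Finset (ℕ × (((Fin m → ℝ) × (Fin m → ℝ)) × F.ζ)) :=
  (range (2 ^ ((J - i) - (J - (i + k))))).image fun r =>
    (F.T1 i ω * 2 ^ ((J - i) - (J - (i + k))) + r, (F.l ω, F.Z ω))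

lemma nx_card (F : Fam m J) (i k : ℕ) (ω : F.Ω) : (nx F i k ω).card ≤ 2 ^ k := by
  classical
  refine Finset.card_image_le.trans ?_
  rw [Finset.card_range]
  exact Nat.pow_le_pow_right (by norm_num) (by omega)

lemma nx_mem (F : Fam m J) (i k : ℕ) {ω υ : F.Ω} (h : Vw F i υ = Vw F i ω) :
    Vw F (i + k) υ ∈ nx F i k ω := by
  classical
  have h1 : F.T1 i υ = F.T1 i ω := (Prod.ext_iff.mp h).1
  have h2 : (F.l υ, F.Z υ) = (F.l ω, F.Z ω) := (Prod.ext_iff.mp h).2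
  refine Finset.mem_image.2 ⟨F.T1 (i + k) υ % 2 ^ ((J - i) - (J - (i + k))),
    mem_range.2 (Nat.mod_lt _ (by positivity)), ?_⟩
  refine Prod.ext ?_ h2.symm
  show F.T1 i ω * _ + _ = F.T1 (i + k) υ
  rw [← h1, ← T1_add F i k υ]
  exact Nat.div_add_mod' _ _

lemma vw_hk (F : Fam m J) (i k : ℕ) {ω : F.Ω} (hω : 0 < F.p ω) :
    hk F.p (Vw F) i k ω ≤ k * Real.log 2 := by
  classical
  have hp := F.isLaw.nonneg
  have hq := cond_nonneg hp (Vw F i) (Vw F i ω)
  have h1 := sum_cond F.p (Vw F i) (law_pos hp (Vw F i) hω).ne'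
  have e0 : H (cond F.p (Vw F i) (Vw F i ω)) (Vw F (i + k)) =
      CH (cond F.p (Vw F i) (Vw F i ω)) (Vw F (i + k)) (fun _ => ()) := by
    unfold CH
    rw [H_const h1, sub_zero]
    exact H_congr hq (fun a b _ _ h => (Prod.ext_iff.mp h).1) (fun a b _ _ h => Prod.ext h rfl)
  unfold hk
  rw [e0]
  refine (CH_le_card hq h1 (Vw F (i + k)) (fun _ => ()) (fun _ => nx F i k ω) ?_).trans ?_
  · intro υ hυ
    exact nx_mem F i k ((cond_pos_iff hp _ _ υ).1 hυ).2
  · rw [Ex_const h1]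
    have hc : 0 < (nx F i k ω).card := Finset.card_pos.2 ⟨_, nx_mem F i k (ω := ω) rfl⟩
    have h2 : ((nx F i k ω).card : ℝ) ≤ 2 ^ k := by exact_mod_cast nx_card F i k ω
    calc Real.log ((nx F i k ω).card : ℝ) ≤ Real.log (2 ^ k) :=
          Real.log_le_log (by exact_mod_cast hc) h2
      _ = k * Real.log 2 := Real.log_pow _ _

/-- The digits of the block up to `v`. -/
lemma bk_div (F : Fam m J) {w L v : ℕ} (hL : w + L ≤ J) (hv : v ≤ L) (ω : F.Ω) :
    bk F w L ω / 2 ^ (L - v) = F.T1 (w + v) ω % 2 ^ v := by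
  unfold bk
  have h1 : F.T1 (w + L) ω / 2 ^ (L - v) = F.T1 (w + v) ω := by
    have := T1_add F (w + v) (L - v) ω
    have e1 : w + v + (L - v) = w + L := by omega
    have e2 : (J - (w + v)) - (J - (w + L)) = L - v := by omega
    rw [e1, e2] at this
    exact this
  have e : L = (L - v) + v := by omega
  have h2 : F.T1 (w + L) ω % 2 ^ L / 2 ^ (L - v) = F.T1 (w + L) ω / 2 ^ (L - v) % 2 ^ v := by
    conv_lhs => rw [show (2 : ℕ) ^ L = 2 ^ (L - v) * 2 ^ v by rw [← pow_add, ← e]]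
    rw [Nat.mod_mul_right_div_self]
  rw [h2, h1]

lemma vw_iff (F : Fam m J) {w L v : ℕ} (hL : w + L ≤ J) (hv : v ≤ L) (ω υ : F.Ω) :
    Vw F (w + v) υ = Vw F (w + v) ω ↔ Vw F w υ = Vw F w ω ∧
      bk F w L υ / 2 ^ (L - v) = bk F w L ω / 2 ^ (L - v) := by
  have e : (J - w) - (J - (w + v)) = v := by omega
  have a1 := T1_add F w v ω
  have a2 := T1_add F w v υ
  rw [e] at a1 a2
  rw [bk_div F hL hv, bk_div F hL hv]
  constructor
  · intro h
    refine ⟨vw_all F w v h, ?_⟩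
    have h1 : F.T1 (w + v) υ = F.T1 (w + v) ω := (Prod.ext_iff.mp h).1
    rw [h1]
  · rintro ⟨h1, h2⟩
    have h3 : F.T1 w υ = F.T1 w ω := (Prod.ext_iff.mp h1).1
    have h4 : (F.l υ, F.Z υ) = (F.l ω, F.Z ω) := (Prod.ext_iff.mp h1).2
    refine Prod.ext ?_ h4
    show F.T1 (w + v) υ = F.T1 (w + v) ω
    rw [← Nat.div_add_mod (F.T1 (w + v) υ) (2 ^ v), ← Nat.div_add_mod (F.T1 (w + v) ω) (2 ^ v),
      a1, a2, h3, h2]

/-- The masses of the windows of the own kernel. -/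
lemma pm_own (F : Fam m J) {w L v : ℕ} (hL : w + L ≤ J) (hv : v ≤ L) {ω υ : F.Ω}
    (hω : 0 < F.p ω) (hυ : Vw F w υ = Vw F w ω) :
    pm (own F w L ω) L v (bk F w L υ) * law F.p (Vw F w) (Vw F w ω) =
      law F.p (Vw F (w + v)) (Vw F (w + v) υ) := by
  classical
  have hp := F.isLaw.nonneg
  have hl := law_pos hp (Vw F w) hω
  have e1 : pm (own F w L ω) L v (bk F w L υ) =
      law (cond F.p (Vw F w) (Vw F w ω)) (fun ω => bk F w L ω / 2 ^ (L - v))
        (bk F w L υ / 2 ^ (L - v)) := lowk_law _ _ _ _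
  rw [e1]
  unfold law Pool.Agent.H49.Ent.cond
  rw [Finset.sum_mul]
  refine Finset.sum_congr rfl fun x _ => ?_
  have h1 := vw_iff F hL hv υ x
  rw [hυ] at h1
  by_cases hx : Vw F (w + v) x = Vw F (w + v) υ
  · rw [if_pos hx, if_pos (h1.1 hx).2, if_pos (h1.1 hx).1]
    change F.p x / law F.p (Vw F w) (Vw F w ω) * law F.p (Vw F w) (Vw F w ω) = F.p x
    field_simp
  · rw [if_neg hx]
    by_cases h2 : bk F w L x / 2 ^ (L - v) = bk F w L υ / 2 ^ (L - v)
    · rw [if_pos h2, if_neg fun h3 => hx (h1.2 ⟨h3, h2⟩), zero_mul]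
    · rw [if_neg h2, zero_mul]

/-- **Dead windows have a small rate.** -/
lemma dead_rate (F : Fam m J) {w L M K : ℕ} (hL : w + L ≤ J) (hLM : L = M * K) (hK : 0 < K)
    {x c : ℝ} (hat : ∀ (Ω S : Type) [Fintype Ω] (q : Ω → ℝ), (∀ ω, 0 ≤ q ω) →
      ∑ ω, q ω = 1 → ∀ (X : Ω → S) (F : Finset S), (∀ ω, 0 < q ω → X ω ∈ F) → F.card ≤ 2 ^ K →
      ∀ s, 1 - c < law q X s → H q X < x * K) {ω υ : F.Ω} (hω : 0 < F.p ω) (hυ0 : 0 < F.p υ)
    (hυ : Vw F w υ = Vw F w ω) {j : ℕ} (hj : j < M)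
    (hd : (1 - c) * pm (own F w L ω) L (j * K) (bk F w L υ) <
      pm (own F w L ω) L ((j + 1) * K) (bk F w L υ)) :
    rk F.p (Vw F) (w + j * K) K υ < x := by
  have hp := F.isLaw.nonneg
  have hj1 : (j + 1) * K ≤ L := by
    rw [hLM]
    exact Nat.mul_le_mul_right K hj
  have hj0 : j * K ≤ L := (Nat.mul_le_mul_right K (Nat.le_succ j)).trans hj1
  have hl := law_pos hp (Vw F w) hω
  have h1 := pm_own F hL hj0 hω hυ
  have h2 := pm_own F hL hj1 hω hυ
  have e : w + (j + 1) * K = w + j * K + K := by ring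
  rw [e] at h2
  have h3 : (1 - c) * law F.p (Vw F (w + j * K)) (Vw F (w + j * K) υ) <
      law F.p (Vw F (w + j * K + K)) (Vw F (w + j * K + K) υ) := by
    rw [← h1, ← h2, ← mul_assoc]
    exact mul_lt_mul_of_pos_right hd hl
  have h4 := law_cond_fine (p := F.p) (Vw F (w + j * K)) (Vw F (w + j * K + K)) (ω := υ)
    (fun y hy => vw_all F _ _ hy)
  have hl2 := law_pos hp (Vw F (w + j * K)) hυ0
  have h5 : 1 - c < law (cond F.p (Vw F (w + j * K)) (Vw F (w + j * K) υ))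
      (Vw F (w + j * K + K)) (Vw F (w + j * K + K) υ) := by
    rw [h4, lt_div_iff₀ hl2]
    exact h3
  have h6 := hat F.Ω _ (cond F.p (Vw F (w + j * K)) (Vw F (w + j * K) υ))
    (cond_nonneg hp _ _) (sum_cond F.p _ hl2.ne') (Vw F (w + j * K + K)) (nx F (w + j * K) K υ)
    (fun y hy => nx_mem F _ _ ((cond_pos_iff hp _ _ y).1 hy).2) (nx_card F _ _ _) _ h5
  unfold rk hk
  have hK' : (0 : ℝ) < K := by exact_mod_cast hK
  rw [div_lt_iff₀ hK']
  exact h6

/-- The mean number of the dead windows of the mesh. -/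
lemma dead_low (F : Fam m J) {w L M K : ℕ} (hL : w + L ≤ J) (hLM : L = M * K) (hK : 0 < K)
    (hM : 0 < M) {x c : ℝ}
    (hat : ∀ (Ω S : Type) [Fintype Ω] (q : Ω → ℝ), (∀ ω, 0 ≤ q ω) →
      ∑ ω, q ω = 1 → ∀ (X : Ω → S) (F : Finset S), (∀ ω, 0 < q ω → X ω ∈ F) → F.card ≤ 2 ^ K →
      ∀ s, 1 - c < law q X s → H q X < x * K) {ω : F.Ω} (hω : 0 < F.p ω) :
    ∑ t ∈ range (2 ^ L), own F w L ω t * (dead (fun v => pm (own F w L ω) L v t) c K M : ℝ) ≤
      M * low F.p (Vw F) w M K x ω := by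
  classical
  have hp := F.isLaw.nonneg
  have hM' : (0 : ℝ) < M := by exact_mod_cast hM
  have h1 := sum_law_mul (cond F.p (Vw F w) (Vw F w ω)) (bk F w L) (n := 2 ^ L)
    (fun υ => Nat.mod_lt _ (by positivity))
    (fun t => (dead (fun v => pm (own F w L ω) L v t) c K M : ℝ))
  have h2 : ∑ t ∈ range (2 ^ L), own F w L ω t *
      (dead (fun v => pm (own F w L ω) L v t) c K M : ℝ) =
      Ex (cond F.p (Vw F w) (Vw F w ω)) (fun υ =>
        (dead (fun v => pm (own F w L ω) L v (bk F w L υ)) c K M : ℝ)) := h1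
  rw [h2]
  have h3 : (M : ℝ) * low F.p (Vw F) w M K x ω = Ex (cond F.p (Vw F w) (Vw F w ω))
      (fun υ => ∑ j ∈ range M, ind (rk F.p (Vw F) (w + j * K) K υ < x)) := by
    unfold low
    rw [mul_div_cancel₀ _ hM'.ne']
    unfold Ex
    rw [Finset.sum_comm]
    exact Finset.sum_congr rfl fun v _ => (Finset.mul_sum _ _ _).symm
  rw [h3]
  refine Ex_mono (cond_nonneg hp _ _) fun υ hυ => ?_
  obtain ⟨hυ0, hυw⟩ := (cond_pos_iff hp _ _ υ).1 hυ
  unfold dead
  rw [Finset.card_filter]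
  push_cast
  refine Finset.sum_le_sum fun j hj => ?_
  split_ifs with hd
  · rw [ind_true (dead_rate F hL hLM hK hat hω hυ0 hυw (mem_range.1 hj) hd)]
  · exact ind_nonneg _

/-- **The mean number of the dead windows of one block.** -/
theorem nbad_blk (F : Fam m J) {w L M K R : ℕ} (hL : w + L ≤ J) (hLM : L = M * K) (hK : 0 < K)
    (hM : 0 < M) (hR : 0 < R) {x c η η' : ℝ} (hc0 : 0 < c) (hc1 : c ≤ 1 / 2)
    (hat : ∀ (Ω S : Type) [Fintype Ω] (q : Ω → ℝ), (∀ ω, 0 ≤ q ω) →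
      ∑ ω, q ω = 1 → ∀ (X : Ω → S) (F : Finset S), (∀ ω, 0 < q ω → X ω ∈ F) → F.card ≤ 2 ^ K →
      ∀ s, 1 - c < law q X s → H q X < x * K)
    (hη : 0 < η) (hη' : (1 - c) ^ R ≤ η') (hη2 : 1 / 2 ^ ((2 * R + 1) * K) ≤ η')
    {ω : F.Ω} (hω : 0 < F.p ω) :
    Ex (cond F.p (Vw F w) (Vw F w ω)) (fun υ =>
      (nbad (mx (own F w L ω) L) L ((2 * R + 1) * K) η (bk F w L υ) 0 L : ℝ)) ≤
      2 * L * low F.p (Vw F) w M K x ω + 6 * (η' / η) * L := by
  have h1 := nbad_mx (own_nonneg F w L ω) (own_sum F w L hω).le hLM hK hR hc0.le (by linarith)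
    hη hη' hη2
  have h2 : ∑ t ∈ range (2 ^ L), own F w L ω t *
      (nbad (mx (own F w L ω) L) L ((2 * R + 1) * K) η t 0 L : ℝ) =
      Ex (cond F.p (Vw F w) (Vw F w ω)) (fun υ =>
      (nbad (mx (own F w L ω) L) L ((2 * R + 1) * K) η (bk F w L υ) 0 L : ℝ)) :=
    sum_law_mul (cond F.p (Vw F w) (Vw F w ω)) (bk F w L) (n := 2 ^ L)
      (fun υ => Nat.mod_lt _ (by positivity)) _
  rw [h2] at h1
  have h3 := dead_low F hL hLM hK hM hat hω
  have hK' : (0 : ℝ) ≤ K := Nat.cast_nonneg K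
  have h4 := mul_le_mul_of_nonneg_left h3 (show 0 ≤ 2 * (K : ℝ) by positivity)
  have h5 : (L : ℝ) = M * K := by
    rw [hLM]
    push_cast
    rfl
  have h6 : 2 * (K : ℝ) * (M * low F.p (Vw F) w M K x ω) = 2 * L * low F.p (Vw F) w M K x ω := by
    rw [h5]
    ring
  linarith

end Pool.KMF
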