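import Pool.Agent.H97.KAL.HBL

/-!
# Energy increment for the block entropies: a scale with few inhomogeneous blocks
-/

set_option autoImplicit false

namespace Pool.KMF

open Finset Real
open Pool.Agent.H49.Ent Pool.Agent.H32.Dense Pool.STK Pool.KAF Pool.KAL Pool.KAL.HBL

variable {Ω σ : Type} [Fintype Ω]

open Classical in
/-- The indicator of a statement. -/
noncomputable def ind (P : Prop) : ℝ := if P then 1 else 0

lemma ind_true {P : Prop} (h : P) : ind P = 1 := if_pos h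
lemma ind_false {P : Prop} (h : ¬ P) : ind P = 0 := if_neg h

lemma ind_nonneg (P : Prop) : 0 ≤ ind P := by
  unfold ind
  split_ifs
  · exact zero_le_one
  · exact le_rfl

lemma ind_le (P : Prop) : ind P ≤ 1 := by
  unfold ind
  split_ifs
  · exact le_rfl
  · exact zero_le_one

/-- The sum over a mesh, in blocks. -/
lemma sum_mesh (f : ℕ → ℝ) (M K : ℕ) : ∀ B : ℕ,
    ∑ n ∈ range (B * M), f (n * K) = ∑ i ∈ range B, ∑ j ∈ range M, f (i * (M * K) + j * K) := by
  intro B
  induction B with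
  | zero => simp
  | succ B ih =>
    rw [Nat.succ_mul, Finset.sum_range_add, ih, Finset.sum_range_succ]
    congr 1
    refine Finset.sum_congr rfl fun j _ => ?_
    congr 1
    ring

/-- The mean energy of the rates over the mesh of `B` blocks of length `K`. -/
noncomputable def me (p : Ω → ℝ) (V : ℕ → Ω → σ) (K B : ℕ) : ℝ :=
  (∑ i ∈ range B, Ex p (fun ω => rk p V (i * K) K ω ^ 2)) / B

lemma me_bd {p : Ω → ℝ} (hp : IsLaw p) {V : ℕ → Ω → σ}
    (hV : ∀ i, Det p (V (i + 1)) (V i)) {L : ℝ} (hL : ∀ i ω, 0 < p ω → hk p V i 1 ω ≤ L)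
    {K B : ℕ} (hK : 0 < K) : 0 ≤ me p V K B ∧ me p V K B ≤ L ^ 2 := by
  unfold me
  refine ⟨div_nonneg (Finset.sum_nonneg fun i _ => (sq_bd hp hV hL _ K hK).1)
    (Nat.cast_nonneg B), ?_⟩
  rcases Nat.eq_zero_or_pos B with h | h
  · subst h
    simp
    exact sq_nonneg L
  · rw [div_le_iff₀ (by exact_mod_cast h)]
    refine (Finset.sum_le_sum fun i _ => (sq_bd hp hV hL (i * K) K hK).2).trans ?_
    rw [Finset.sum_const, Finset.card_range, nsmul_eq_mul]
    exact le_of_eq (mul_comm _ _)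

/-- The energy increment. -/
lemma me_step {p : Ω → ℝ} (hp : ∀ ω, 0 ≤ p ω) {V : ℕ → Ω → σ}
    (hV : ∀ i, Det p (V (i + 1)) (V i)) {K M B : ℕ} (hK : 0 < K) (hM : 0 < M) (hB : 0 < B) :
    ∑ i ∈ range B, Ex p (fun ω => ∑ j ∈ range M,
      (rk p V (i * (M * K) + j * K) K ω - rk p V (i * (M * K)) (M * K) ω) ^ 2) =
        B * M * (me p V K (B * M) - me p V (M * K) B) := by
  have hM' : (0 : ℝ) < M := by exact_mod_cast hM
  have hB' : (0 : ℝ) < B := by exact_mod_cast hB
  rw [Finset.sum_congr rfl fun i _ => pyth hp hV (i * (M * K)) K M hK hM,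
    Finset.sum_sub_distrib, ← Finset.mul_sum]
  unfold me
  rw [sum_mesh (fun x => Ex p (fun ω => rk p V x K ω ^ 2)) M K B]
  push_cast
  field_simp

/-- Pigeonhole over the scales. -/
lemma exists_inc {p : Ω → ℝ} (hp : IsLaw p) {V : ℕ → Ω → σ}
    (hV : ∀ i, Det p (V (i + 1)) (V i)) {L : ℝ} (hL : ∀ i ω, 0 < p ω → hk p V i 1 ω ≤ L)
    (K B : ℕ → ℕ) (hK : ∀ i, 0 < K i) {N : ℕ} (hN : 0 < N) :
    ∃ i < N, me p V (K i) (B i) - me p V (K (i + 1)) (B (i + 1)) ≤ L ^ 2 / N := by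
  by_contra hcon
  push Not at hcon
  have h1 : ∑ i ∈ range N, L ^ 2 / N <
      ∑ i ∈ range N, (me p V (K i) (B i) - me p V (K (i + 1)) (B (i + 1))) :=
    Finset.sum_lt_sum_of_nonempty ⟨0, mem_range.2 hN⟩ fun i hi => hcon i (mem_range.1 hi)
  rw [Finset.sum_const, Finset.card_range, nsmul_eq_mul,
    Finset.sum_range_sub' (fun i => me p V (K i) (B i)) N] at h1
  have hN' : (0 : ℝ) < N := by exact_mod_cast hN
  have h2 : (N : ℝ) * (L ^ 2 / N) = L ^ 2 := by field_simp
  have h3 := (me_bd hp hV hL (B := B 0) (hK 0)).2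
  have h4 := (me_bd hp hV hL (B := B N) (hK N)).1
  linarith

/-- The portion of the windows of length `K` in the block `(w, w + M K]` whose rates are small,
given the past of the block. -/
noncomputable def low (p : Ω → ℝ) (V : ℕ → Ω → σ) (w M K : ℕ) (x : ℝ) (ω : Ω) : ℝ :=
  (∑ j ∈ range M, Ex (cond p (V w) (V w ω)) (fun v => ind (rk p V (w + j * K) K v < x))) / M

lemma low_nonneg {p : Ω → ℝ} (hp : ∀ ω, 0 ≤ p ω) (V : ℕ → Ω → σ) (w M K : ℕ) (x : ℝ) (ω : Ω) :
    0 ≤ low p V w M K x ω :=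
  div_nonneg (Finset.sum_nonneg fun j _ => Ex_nonneg (cond_nonneg hp _ _) fun _ _ => ind_nonneg _)
    (Nat.cast_nonneg M)

/-- The mean of the conditional means. -/
lemma Ex_tow {p : Ω → ℝ} (hp : ∀ ω, 0 ≤ p ω) {T : Type} (W : Ω → T) (f : Ω → ℝ) :
    Ex p (fun ω => Ex (cond p W (W ω)) f) = Ex p f := by
  have := tower hp W (fun _ => (1 : ℝ)) f
  simpa using this

/-- Bad blocks have a large variance. -/
lemma bad_le {p : Ω → ℝ} (hp : ∀ ω, 0 ≤ p ω) (V : ℕ → Ω → σ) (w M K : ℕ) (hM : 0 < M)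
    {x r : ℝ} (hx : 0 ≤ x) (hr : 0 ≤ r) :
    Ex p (fun ω => ind (2 * x ≤ rk p V w (M * K) ω ∧ r ≤ low p V w M K x ω)) * (M * r * x ^ 2) ≤
      Ex p (fun ω => ∑ j ∈ range M, (rk p V (w + j * K) K ω - rk p V w (M * K) ω) ^ 2) := by
  have hM' : (0 : ℝ) < M := by exact_mod_cast hM
  rw [← Ex_tow hp (V w) (fun ω => ∑ j ∈ range M,
    (rk p V (w + j * K) K ω - rk p V w (M * K) ω) ^ 2), mul_comm, ← Ex_smul]
  refine Ex_mono hp fun ω hω => ?_
  by_cases h : 2 * x ≤ rk p V w (M * K) ω ∧ r ≤ low p V w M K x ω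
  · rw [ind_true h, mul_one]
    have h1 : ∀ j ∈ range M, x ^ 2 * Ex (cond p (V w) (V w ω))
        (fun v => ind (rk p V (w + j * K) K v < x)) ≤
        Ex (cond p (V w) (V w ω)) (fun v => (rk p V (w + j * K) K v - rk p V w (M * K) v) ^ 2) := by
      intro j _
      rw [← Ex_smul]
      refine Ex_mono (cond_nonneg hp _ _) fun v hv => ?_
      obtain ⟨_, hvw⟩ := (cond_pos_iff hp _ _ v).1 hv
      have h2 : rk p V w (M * K) v = rk p V w (M * K) ω := by
        unfold rk hk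
        rw [hvw]
      rw [h2]
      by_cases h3 : rk p V (w + j * K) K v < x
      · rw [ind_true h3, mul_one]
        have h4 : x ≤ rk p V w (M * K) ω - rk p V (w + j * K) K v := by linarith [h.1]
        have h5 : (rk p V (w + j * K) K v - rk p V w (M * K) ω) ^ 2 =
            (rk p V w (M * K) ω - rk p V (w + j * K) K v) ^ 2 := by ring
        rw [h5]
        exact pow_le_pow_left₀ hx h4 2
      · rw [ind_false h3, mul_zero]
        exact sq_nonneg _
    have h2 := Finset.sum_le_sum h1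
    rw [← Finset.mul_sum] at h2
    have h3 : ∑ j ∈ range M, Ex (cond p (V w) (V w ω))
        (fun v => (rk p V (w + j * K) K v - rk p V w (M * K) v) ^ 2) =
        Ex (cond p (V w) (V w ω)) (fun v => ∑ j ∈ range M,
          (rk p V (w + j * K) K v - rk p V w (M * K) v) ^ 2) := by
      unfold Ex
      rw [Finset.sum_comm]
      exact Finset.sum_congr rfl fun v _ => (Finset.mul_sum _ _ _).symm
    rw [h3] at h2
    refine le_trans ?_ h2
    have h4 : ∑ j ∈ range M, Ex (cond p (V w) (V w ω))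
        (fun v => ind (rk p V (w + j * K) K v < x)) = M * low p V w M K x ω := by
      unfold low
      field_simp
    rw [h4]
    have h5 : r ≤ low p V w M K x ω := h.2
    have h6 : 0 ≤ x ^ 2 * M := by positivity
    calc (M : ℝ) * r * x ^ 2 = x ^ 2 * M * r := by ring
      _ ≤ x ^ 2 * M * low p V w M K x ω := mul_le_mul_of_nonneg_left h5 h6
      _ = _ := by ring
  · rw [ind_false h, mul_zero]
    exact Ex_nonneg (cond_nonneg hp _ _) fun v _ => Finset.sum_nonneg fun j _ => sq_nonneg _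

/-- **A good scale.** For a sequence of scales there is one for which only a small portion of the
blocks is inhomogeneous: of rate at least `2 x` and with a portion at least `r` of windows of rate
less than `x`. -/
theorem exists_scale {p : Ω → ℝ} (hp : IsLaw p) {V : ℕ → Ω → σ}
    (hV : ∀ i, Det p (V (i + 1)) (V i)) {L : ℝ} (hL : ∀ i ω, 0 < p ω → hk p V i 1 ω ≤ L)
    (K M B : ℕ → ℕ) (hK : ∀ i, 0 < K i) (hM : ∀ i, 0 < M i) (hB : ∀ i, 0 < B i)
    (hKM : ∀ i, K (i + 1) = M i * K i) {N : ℕ} (hN : 0 < N)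
    (hBM : ∀ i < N, B i = B (i + 1) * M i)
    {x r : ℝ} (hx : 0 < x) (hr : 0 < r) :
    ∃ i < N, ∑ w ∈ range (B (i + 1)), Ex p (fun ω => ind
      (2 * x ≤ rk p V (w * K (i + 1)) (K (i + 1)) ω ∧
        r ≤ low p V (w * K (i + 1)) (M i) (K i) x ω)) ≤
          B (i + 1) * (L ^ 2 / (N * r * x ^ 2)) := by
  obtain ⟨i, hi, h⟩ := exists_inc hp hV hL K B hK hN
  refine ⟨i, hi, ?_⟩
  have hM' : (0 : ℝ) < M i := by exact_mod_cast hM i
  have hB' : (0 : ℝ) < B (i + 1) := by exact_mod_cast hB (i + 1)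
  have hN' : (0 : ℝ) < N := by exact_mod_cast hN
  have h1 := me_step hp.nonneg hV (hK i) (hM i) (hB (i + 1))
  rw [← hBM i hi, ← hKM i] at h1
  have h2 : ∀ w ∈ range (B (i + 1)), Ex p (fun ω => ind
      (2 * x ≤ rk p V (w * K (i + 1)) (K (i + 1)) ω ∧
        r ≤ low p V (w * K (i + 1)) (M i) (K i) x ω)) * (M i * r * x ^ 2) ≤
      Ex p (fun ω => ∑ j ∈ range (M i), (rk p V (w * K (i + 1) + j * K i) (K i) ω -
        rk p V (w * K (i + 1)) (K (i + 1)) ω) ^ 2) := by
    intro w _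
    have := bad_le hp.nonneg V (w * K (i + 1)) (M i) (K i) (hM i) hx.le hr.le
    rw [← hKM i] at this
    exact this
  have h3 := Finset.sum_le_sum h2
  rw [← Finset.sum_mul, h1] at h3
  have h4 : (0 : ℝ) < M i * r * x ^ 2 := by positivity
  have h5 : B (i + 1) * M i * (me p V (K i) (B i) - me p V (K (i + 1)) (B (i + 1))) ≤
      B (i + 1) * M i * (L ^ 2 / N) := mul_le_mul_of_nonneg_left h (by positivity)
  have h6 := h3.trans h5
  rw [← le_div_iff₀ h4] at h6
  refine h6.trans (le_of_eq ?_)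
  field_simp

end Pool.KMF
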