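import Pool.Agent.H58.KMF.Cost

/-!
# The cost of the own kernels of a family
-/

set_option autoImplicit false

namespace Pool.KMF

open Finset Real
open Pool.Agent.H49.Ent Pool.Agent.H32.Dense Pool.STK Pool.KA Pool.KAL Pool.KM7

open Classical in
/-- The state given by a law. -/
noncomputable def toBL (L : ℕ) (lam : ℕ → ℝ) : BL L :=
  if h : (∀ t, 0 ≤ lam t) ∧ ∑ t ∈ range (2 ^ L), lam t ≤ 1 then
    ⟨mx lam L, mx_nonneg h.1 L, mx_sum h.2, fun t _ => mx_ge h.1 L t⟩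
  else ⟨mx (fun _ => 0) L, mx_nonneg (fun _ => le_rfl) L, mx_sum (by simp),
    fun t _ => mx_ge (fun _ => le_rfl) L t⟩

lemma toBL_val {L : ℕ} {lam : ℕ → ℝ} (h0 : ∀ t, 0 ≤ lam t)
    (h1 : ∑ t ∈ range (2 ^ L), lam t ≤ 1) : (toBL L lam).1 = mx lam L := by
  unfold toBL
  rw [dif_pos ⟨h0, h1⟩]

/-- The states of the blocks, counted from the end: the own kernels. -/
noncomputable def yo {m J : ℕ} (F : Fam m J) (L N : ℕ) (i : ℕ) (ω : F.Ω) : BL L :=
  toBL L (own F ((N - 1 - i) * L) L ω)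

lemma ar1 {L N i : ℕ} (hi : i < N) : L * N - (N - 1 - i) * L = L * (i + 1) := by
  have e : (N - 1 - i) + (i + 1) = N := by omega
  have e2 : L * N = L * (i + 1) + (N - 1 - i) * L := by
    calc L * N = L * ((N - 1 - i) + (i + 1)) := by rw [e]
      _ = _ := by ring
  rw [e2, Nat.add_sub_cancel]

lemma ar2 {L N i : ℕ} (hi : i < N) : L * N - ((N - 1 - i) * L + L) = L * i := by
  have e : (N - 1 - i) + 1 + i = N := by omega
  have e2 : L * N = L * i + ((N - 1 - i) * L + L) := by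
    calc L * N = L * ((N - 1 - i) + 1 + i) := by rw [e]
      _ = _ := by ring
  rw [e2, Nat.add_sub_cancel]

lemma ar3 {L N j : ℕ} (hj : j < N) : j * L + L ≤ L * N := by
  calc j * L + L = L * (j + 1) := by ring
    _ ≤ L * N := Nat.mul_le_mul_left L hj

lemma yo_adm {L N : ℕ} (F : Fam 2 (L * N)) : Adm L N F (fun _ => ()) (yo F L N) := by
  intro i hi ω ω' hω hω' h
  have h1 : ((), (F.l ω, F.Z ω)) = ((), (F.l ω', F.Z ω')) := (Prod.ext_iff.mp h).1
  have h2 : F.T ω / 2 ^ (L * (i + 1)) = F.T ω' / 2 ^ (L * (i + 1)) := (Prod.ext_iff.mp h).2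
  unfold yo
  have e : own F ((N - 1 - i) * L) L ω = own F ((N - 1 - i) * L) L ω' := by
    refine own_det F _ L ω ω' hω hω' (Prod.ext ?_ (Prod.ext_iff.mp h1).2)
    show F.T ω / 2 ^ (L * N - (N - 1 - i) * L) = F.T ω' / 2 ^ (L * N - (N - 1 - i) * L)
    rw [ar1 hi]
    exact h2
  rw [e]

lemma bk_eq {L N : ℕ} (F : Fam 2 (L * N)) {i : ℕ} (hi : i < N) (ω : F.Ω) :
    bk F ((N - 1 - i) * L) L ω = F.T ω / 2 ^ (L * i) % 2 ^ L := by
  show F.T ω / 2 ^ (L * N - ((N - 1 - i) * L + L)) % 2 ^ L = _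
  rw [ar2 hi]

/-- The cost of the own kernels, block by block. -/
lemma cst_own {L N K : ℕ} {η Λ : ℝ} (F : Fam 2 (L * N)) :
    cst (fL L K η Λ) Λ L N F (fun _ => ()) (yo F L N) =
      ∑ j ∈ range N, Ex F.p (fun ω => gL L K η (mx (own F (j * L) L ω) L) (bk F (j * L) L ω)) +
      Λ * (∑ j ∈ range N, Ex F.p (fun ω => -Real.log (mx (own F (j * L) L ω) L
        (bk F (j * L) L ω))) - CH F.p F.T (fun ω => (F.l ω, F.Z ω))) := by
  have hp := F.isLaw.nonneg
  unfold cst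
  have e1 : ∀ i ∈ range N, Ex F.p (fun ω => fL L K η Λ (yo F L N i ω)
      (F.T ω / 2 ^ (L * i) % 2 ^ L)) =
      (fun j => Ex F.p (fun ω => gL L K η (mx (own F (j * L) L ω) L) (bk F (j * L) L ω)) +
        Λ * Ex F.p (fun ω => -Real.log (mx (own F (j * L) L ω) L (bk F (j * L) L ω))))
        (N - 1 - i) := by
    intro i hi
    dsimp only
    rw [← Ex_smul, ← Ex_add]
    refine Ex_congr_pos hp fun ω hω => ?_
    rw [← bk_eq F (mem_range.1 hi), fL_eq]
    have e : (yo F L N i ω).1 = mx (own F ((N - 1 - i) * L) L ω) L :=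
      toBL_val (own_nonneg F _ L ω) (own_sum F _ L hω).le
    rw [e]
    ring
  rw [Finset.sum_congr rfl e1, Finset.sum_range_reflect (fun j => Ex F.p (fun ω =>
    gL L K η (mx (own F (j * L) L ω) L) (bk F (j * L) L ω)) +
        Λ * Ex F.p (fun ω => -Real.log (mx (own F (j * L) L ω) L (bk F (j * L) L ω)))) N,
    Finset.sum_add_distrib, ← Finset.mul_sum]
  have e2 : CH F.p (fun ω => F.T ω % 2 ^ (L * N))
      (fun ω => (((), (F.l ω, F.Z ω)), F.T ω / 2 ^ (L * N))) =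
      CH F.p F.T (fun ω => (F.l ω, F.Z ω)) := by
    refine CH_congr hp ?_ ?_ ?_ ?_
    · intro a b _ _ h
      have h1 : F.T a % 2 ^ (L * N) = F.T b % 2 ^ (L * N) := (Prod.ext_iff.mp h).1
      rwa [Nat.mod_eq_of_lt (F.tim a), Nat.mod_eq_of_lt (F.tim b)] at h1
    · intro a b _ _ h
      have h1 : F.T a = F.T b := (Prod.ext_iff.mp h).1
      show F.T a % 2 ^ (L * N) = F.T b % 2 ^ (L * N)
      rw [h1]
    · intro a b _ _ h
      exact (Prod.ext_iff.mp (Prod.ext_iff.mp h).1).2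
    · intro a b _ _ h
      refine Prod.ext (Prod.ext rfl h) ?_
      show F.T a / 2 ^ (L * N) = F.T b / 2 ^ (L * N)
      rw [Nat.div_eq_of_lt (F.tim a), Nat.div_eq_of_lt (F.tim b)]
  rw [e2]
  ring

/-- **(EST)** The cost of the own kernels is at most three times the deficit of the time, up to the
bad blocks. -/
theorem est {L M K R N : ℕ} (hLM : L = M * K) (hK : 0 < K)
    (hM : 0 < M) (hR : 0 < R) {x r c η η' Λ : ℝ} (hx : 0 ≤ x) (hr : 0 ≤ r) (hc0 : 0 < c)
    (hc1 : c ≤ 1 / 2)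
    (hat : ∀ (Ω S : Type) [Fintype Ω] (q : Ω → ℝ), (∀ ω, 0 ≤ q ω) →
      ∑ ω, q ω = 1 → ∀ (X : Ω → S) (F : Finset S), (∀ ω, 0 < q ω → X ω ∈ F) → F.card ≤ 2 ^ K →
      ∀ s, 1 - c < law q X s → H q X < x * K)
    (hη : 0 < η) (hη' : (1 - c) ^ R ≤ η') (hη2 : 1 / 2 ^ ((2 * R + 1) * K) ≤ η') (hΛ : 0 ≤ Λ)
    (F : Fam 2 (L * N)) :
    cst (fL L ((2 * R + 1) * K) η Λ) Λ L N F (fun _ => ()) (yo F L N) ≤
      3 * (((L * N : ℕ) : ℝ) * Real.log 2 - CH F.p F.T (fun ω => (F.l ω, F.Z ω))) +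
      N * (6 * x * L + (4 * r / η + 12 * η' / η ^ 2) * ((3 * L + 1) * Real.log 2) +
        Λ * Real.log 2) +
      3 * (L * Real.log 2) * ∑ j ∈ range N, Ex F.p (fun ω =>
        ind (2 * x ≤ rk F.p (Vw F) (j * L) L ω ∧ r ≤ low F.p (Vw F) (j * L) M K x ω)) := by
  have hp := F.isLaw.nonneg
  have h1 := F.isLaw.sum_one
  rw [cst_own]
  have hk := klp F (L := L) (B := N) rfl
  have hg : ∀ j ∈ range N, Ex F.p (fun ω => gL L ((2 * R + 1) * K) η
      (mx (own F (j * L) L ω) L) (bk F (j * L) L ω)) ≤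
      (3 * (L * Real.log 2) + 6 * x * L +
        (4 * r / η + 12 * η' / η ^ 2) * ((3 * L + 1) * Real.log 2)) -
        3 * Ex F.p (fun ω => -Real.log (own F (j * L) L ω (bk F (j * L) L ω))) +
        3 * (L * Real.log 2) * Ex F.p (fun ω =>
          ind (2 * x ≤ rk F.p (Vw F) (j * L) L ω ∧ r ≤ low F.p (Vw F) (j * L) M K x ω)) := by
    intro j hj
    have h2 := cost_mean F (ar3 (mem_range.1 hj)) hLM hK hM hR hx hr hc0 hc1 hat hη hη' hη2
    rw [own_ch F (j * L) L]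
    linarith
  have hl : ∀ j ∈ range N, Ex F.p (fun ω => -Real.log (mx (own F (j * L) L ω) L
      (bk F (j * L) L ω))) ≤
      Ex F.p (fun ω => -Real.log (own F (j * L) L ω (bk F (j * L) L ω))) + Real.log 2 := by
    intro j _
    rw [← Ex_const h1 (Real.log 2), ← Ex_add]
    refine Ex_mono hp fun ω hω => ?_
    have h2 := own_pos F (j * L) L hω
    have h3 := le_mx (own F (j * L) L ω) L (bk F (j * L) L ω)
    have h4 := Real.log_le_log h2 h3
    rw [Real.log_mul (by norm_num) (mx_pos (own_nonneg F _ L ω) L _).ne'] at h4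
    linarith
  have s1 := Finset.sum_le_sum hg
  have s2 := Finset.sum_le_sum hl
  rw [Finset.sum_add_distrib, Finset.sum_sub_distrib, Finset.sum_const, Finset.card_range,
    nsmul_eq_mul, ← Finset.mul_sum, ← Finset.mul_sum, hk] at s1
  rw [Finset.sum_add_distrib, Finset.sum_const, Finset.card_range, nsmul_eq_mul, hk] at s2
  have s3 := mul_le_mul_of_nonneg_left (show (∑ j ∈ range N, Ex F.p (fun ω =>
    -Real.log (mx (own F (j * L) L ω) L (bk F (j * L) L ω))) -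
      CH F.p F.T (fun ω => (F.l ω, F.Z ω))) ≤ N * Real.log 2 by linarith) hΛ
  have e : ((L * N : ℕ) : ℝ) = L * N := by push_cast; ring
  rw [e]
  have e2 : (N : ℝ) * (3 * (L * Real.log 2) + 6 * x * L +
        (4 * r / η + 12 * η' / η ^ 2) * ((3 * L + 1) * Real.log 2)) =
      3 * (L * N * Real.log 2) + N * (6 * x * L +
        (4 * r / η + 12 * η' / η ^ 2) * ((3 * L + 1) * Real.log 2)) := by ring
  have e3 : (N : ℝ) * (6 * x * L + (4 * r / η + 12 * η' / η ^ 2) * ((3 * L + 1) * Real.log 2) +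
        Λ * Real.log 2) = N * (6 * x * L +
        (4 * r / η + 12 * η' / η ^ 2) * ((3 * L + 1) * Real.log 2)) + Λ * (N * Real.log 2) := by
    ring
  rw [e2] at s1
  rw [e3]
  linarith

end Pool.KMF
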