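import Pool.Agent.H58.KMF.Est
import Pool.Agent.H15.KM7.U
import Pool.Agent.H15.KM7.Trj

/-!
# From the label inequality for live times to the maximal inequality
-/

set_option autoImplicit false

namespace Pool.KMF

open Finset Real
open Pool.Agent.H49.Ent Pool.Agent.H32.Dense Pool.STK Pool.KA Pool.KAL Pool.KM7

lemma sqrt_lin (a c e : ℝ) (ha : 0 ≤ a) (he : 0 < e) :
    ∃ L₁ : ℕ, ∀ L : ℕ, L₁ ≤ L → c * Real.sqrt (a * L + 2) ≤ e * L := by
  obtain ⟨n, hn⟩ := exists_nat_ge (c ^ 2 * (a + 2) / e ^ 2)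
  refine ⟨max n 1, fun L hL => ?_⟩
  have h1 : (1 : ℝ) ≤ L := by exact_mod_cast (le_max_right n 1).trans hL
  have h2 : (n : ℝ) ≤ L := by exact_mod_cast (le_max_left n 1).trans hL
  have h3 : c ^ 2 * (a + 2) / e ^ 2 ≤ L := hn.trans h2
  rw [div_le_iff₀ (by positivity)] at h3
  have h4 : Real.sqrt (a * L + 2) ^ 2 = a * L + 2 := Real.sq_sqrt (by positivity)
  refine le_of_sq_le_sq ?_ (by positivity)
  rw [mul_pow, h4, mul_pow]
  calc c ^ 2 * (a * L + 2) ≤ c ^ 2 * (a * L + 2 * L) := by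
        refine mul_le_mul_of_nonneg_left ?_ (sq_nonneg c)
        linarith only [h1]
    _ = c ^ 2 * (a + 2) * L := by ring
    _ ≤ L * e ^ 2 * L := mul_le_mul_of_nonneg_right h3 (by positivity)
    _ = e ^ 2 * (L : ℝ) ^ 2 := by ring

lemma log_sqrt_le {z : ℝ} (hz : 2 ≤ z) : Real.log z ≤ 2 * Real.sqrt z := by
  have h0 : 0 < Real.sqrt z := Real.sqrt_pos.2 (by linarith only [hz])
  have h1 : Real.log z = 2 * Real.log (Real.sqrt z) := by
    rw [Real.log_sqrt (by linarith only [hz])]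
    ring
  have h2 := Real.log_le_sub_one_of_pos h0
  rw [h1]
  linarith only [h2]

lemma log_sq_le {z : ℝ} (hz : 2 ≤ z) : Real.log z ^ 2 ≤ 16 * Real.sqrt z := by
  have h0 : 0 < Real.sqrt z := Real.sqrt_pos.2 (by linarith only [hz])
  have h0' : 0 < Real.sqrt (Real.sqrt z) := Real.sqrt_pos.2 h0
  have h1 : Real.log z = 4 * Real.log (Real.sqrt (Real.sqrt z)) := by
    rw [Real.log_sqrt h0.le, Real.log_sqrt (by linarith only [hz])]
    ring
  have h2 := Real.log_le_sub_one_of_pos h0'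
  have h3 : 0 ≤ Real.log z := Real.log_nonneg (by linarith only [hz])
  have h4 : Real.log z ≤ 4 * Real.sqrt (Real.sqrt z) := by
    rw [h1]
    linarith only [h2]
  have h5 : Real.sqrt (Real.sqrt z) ^ 2 = Real.sqrt z := Real.sq_sqrt h0.le
  calc Real.log z ^ 2 ≤ (4 * Real.sqrt (Real.sqrt z)) ^ 2 := pow_le_pow_left₀ h3 h4 2
    _ = 16 * Real.sqrt (Real.sqrt z) ^ 2 := by ring
    _ = _ := by rw [h5]

lemma pow_small {y e : ℝ} (hy0 : 0 ≤ y) (hy : y < 1) (he : 0 < e) :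
    ∃ R₀ : ℕ, ∀ R, R₀ ≤ R → y ^ R ≤ e := by
  obtain ⟨n, hn⟩ := exists_pow_lt_of_lt_one he hy
  exact ⟨n, fun R hR => (pow_le_pow_of_le_one hy0 hy.le hR).trans hn.le⟩

/-- The threshold for the windows. -/
lemma exists_R {c η η' : ℝ} (hc : 0 < c) (hc1 : c ≤ 1 / 2) (hη : 0 < η) (hη' : 0 < η') {K : ℕ}
    (hK : 0 < K) : ∃ R : ℕ, 0 < R ∧ (1 - c) ^ R ≤ η' ∧ 1 / 2 ^ ((2 * R + 1) * K) ≤ η' ∧
      3 / 2 ^ ((2 * R + 1) * K) ≤ η := by
  obtain ⟨R₁, h1⟩ := pow_small (y := 1 - c) (by linarith only [hc, hc1]) (by linarith only [hc]) hη'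
  obtain ⟨R₂, h2⟩ := pow_small (y := 1 / 2) (by norm_num) (by norm_num) hη'
  obtain ⟨R₃, h3⟩ := pow_small (y := 1 / 2) (by norm_num) (by norm_num)
    (show 0 < η / 3 by positivity)
  have e : ∀ n : ℕ, (1 : ℝ) / 2 ^ n = (1 / 2) ^ n := fun n => by rw [one_div_pow]
  set R := max (max R₁ R₂) (max R₃ 1) with hR
  have r1 : R₁ ≤ R := (le_max_left _ _).trans (le_max_left _ _)
  have r2 : R₂ ≤ R := (le_max_right _ _).trans (le_max_left _ _)
  have r3 : R₃ ≤ R := (le_max_left _ _).trans (le_max_right _ _)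
  have r4 : 1 ≤ R := (le_max_right _ _).trans (le_max_right _ _)
  have hle : R ≤ (2 * R + 1) * K := by nlinarith only [hK, r4]
  refine ⟨R, r4, h1 R r1, ?_, ?_⟩
  · rw [e]
    exact h2 _ (r2.trans hle)
  · have h4 := h3 _ (r3.trans hle)
    rw [← e] at h4
    have e2 : (3 : ℝ) / 2 ^ ((2 * R + 1) * K) = 3 * (1 / 2 ^ ((2 * R + 1) * K)) := by ring
    rw [e2]
    linarith only [h4]

/-- **One scale.** -/
theorem scl {b : ℝ} (hb : 1 ≤ b) (hB : BASGStmt) (hSTEP : STEPUStmt) (hTOW : TOWUStmt)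
    (hSTA : STAStmt) (hFIN : FINStmt) (hLKG : Pool.LK.LKG 2 b) {ε : ℝ} (hε : 0 < ε) :
    ∃ x : ℝ, 0 < x ∧ ∃ r : ℝ, 0 < r ∧ ∀ K : ℕ, 0 < K → ∃ L₁ : ℕ, ∀ M : ℕ, 0 < M → L₁ ≤ M * K →
      ∃ J₁ : ℕ, ∀ N J : ℕ, J = M * K * N → J₁ ≤ J → ∀ F : Fam 2 J,
      CH F.p (F.D J) F.Z + (J : ℝ) * Real.log 2 - CH F.p (fun ω => (F.X J ω, F.T ω)) F.Z ≤
        3 * ((J : ℝ) * Real.log 2 - CH F.p F.T (fun ω => (F.l ω, F.Z ω))) + ε * J +
        3 * (((M * K : ℕ) : ℝ) * Real.log 2) * ∑ j ∈ range N, Ex F.p (fun ω =>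
          ind (2 * x ≤ rk F.p (Vw F) (j * (M * K)) (M * K) ω ∧
            r ≤ low F.p (Vw F) (j * (M * K)) M K x ω)) := by
  obtain ⟨C, hC, hthm⟩ := thmBU hSTEP hTOW hSTA hFIN
  have hl2 : 0 < Real.log 2 := Real.log_pos (by norm_num)
  have hl1 : Real.log 2 < 0.7 := by
    have := Real.log_two_lt_d9
    linarith only [hl2, this]
  set κ : ℝ := min 1 (ε / 16) with hκ
  have hκ0 : 0 < κ := by
    rw [hκ]
    positivity
  have hκ1 : κ ≤ 1 := min_le_left _ _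
  have hκε : κ ≤ ε / 16 := min_le_right _ _
  obtain ⟨A, hA⟩ := exists_nat_ge (3 / κ)
  have hA3 : 3 ≤ κ * A := by
    rw [div_le_iff₀ hκ0] at hA
    linarith only [hA]
  obtain ⟨η, hη, hbase⟩ := hB b hb hLKG κ hκ0 hκ1 A
  have hη' : 0 < ε * η ^ 2 / 192 := by positivity
  refine ⟨ε / 48, by positivity, ε * η / 64, by positivity, fun K hK => ?_⟩
  obtain ⟨c, hc0, hc1, hat⟩ := exists_atom hK (show 0 < ε / 48 by positivity)
  obtain ⟨R, hR, hR1, hR2, hR3⟩ := exists_R hc0 hc1 hη hη' hK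
  obtain ⟨Λ, hΛ, L₀, hPNU⟩ := hbase ((2 * R + 1) * K) hR3
  have hΛ0 : 0 < Λ := by linarith only [hc0, hc1, hΛ]
  obtain ⟨L₂, hL₂⟩ := sqrt_lin (1 + A) (2 * (C * (1 + Λ))) (ε / 8) (by positivity) (by positivity)
  obtain ⟨L₃, hL₃⟩ := exists_nat_ge (40 * Λ / ε)
  refine ⟨max (max L₀ L₂) (max L₃ 1), fun M hM hL => ?_⟩
  set L := M * K with hLdef
  have l0 : L₀ ≤ L := ((le_max_left _ _).trans (le_max_left _ _)).trans hL
  have l2 : L₂ ≤ L := ((le_max_right _ _).trans (le_max_left _ _)).trans hL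
  have l3 : L₃ ≤ L := ((le_max_left _ _).trans (le_max_right _ _)).trans hL
  have l1 : 1 ≤ L := ((le_max_right _ _).trans (le_max_right _ _)).trans hL
  have hL1 : (1 : ℝ) ≤ L := by exact_mod_cast l1
  obtain ⟨J₂, hJ₂⟩ := sqrt_lin 1 (16 * (C * (1 + Λ))) (ε / 16) (by norm_num) (by positivity)
  obtain ⟨J₃, hJ₃⟩ := exists_nat_ge (16 * C / ε)
  refine ⟨max J₂ J₃, ?_⟩
  intro N J hJ hJ1 F
  subst hJ
  have hLN : ((L * N : ℕ) : ℝ) = L * N := by push_cast; ring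
  have hN0 : (0 : ℝ) ≤ N := Nat.cast_nonneg N
  have h1 := hthm κ hκ0 hκ1 A hA3 (BL L) (fL L ((2 * R + 1) * K) η Λ) Λ hΛ0 L l1
    (nng_bl3 hΛ (Lv L ((2 * R + 1) * K) η)) (2 * κ) (by linarith only [hκ0]) (hPNU L l0) N F (yo F L N)
    (yo_adm F)
  have h2 := est hLdef hK hM hR (x := ε / 48) (r := ε * η / 64) (c := c) (η := η)
    (η' := ε * η ^ 2 / 192) (Λ := Λ) (by positivity) (by positivity) hc0 hc1 hat hη hR1 hR2
    hΛ0.le F
  -- the errors
  have e1 : 4 * (ε * η / 64) / η + 12 * (ε * η ^ 2 / 192) / η ^ 2 = ε / 8 := by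
    field_simp
    ring
  rw [e1] at h2
  have e2 : (N : ℝ) * (6 * (ε / 48) * L + ε / 8 * ((3 * L + 1) * Real.log 2) + Λ * Real.log 2) ≤
      ε / 2 * (L * N) := by
    have e3 : Λ * Real.log 2 ≤ ε / 40 * L := by
      have e4 : 40 * Λ / ε ≤ L := hL₃.trans (by exact_mod_cast l3)
      rw [div_le_iff₀ hε] at e4
      have e5 : Λ * Real.log 2 ≤ Λ * 1 := mul_le_mul_of_nonneg_left (by linarith only [hl1, hc0, hc1]) hΛ0.le
      linarith only [e4, e5]
    have e4 : ε / 8 * ((3 * L + 1) * Real.log 2) ≤ ε / 8 * (4 * L * 0.7) := by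
      refine mul_le_mul_of_nonneg_left ?_ (by positivity)
      refine mul_le_mul (by linarith only [hL1]) hl1.le hl2.le (by positivity)
    have e5 : 6 * (ε / 48) * L + ε / 8 * ((3 * L + 1) * Real.log 2) + Λ * Real.log 2 ≤
        ε / 2 * L := by
      have : 0 ≤ ε * L := by positivity
      linarith only [e3, e4]
    calc _ ≤ (N : ℝ) * (ε / 2 * L) := mul_le_mul_of_nonneg_left e5 hN0
      _ = _ := by ring
  have e6 : C * (1 + Λ) * Real.log ((1 + A) * L + 2) / L ≤ ε / 8 := by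
    rw [div_le_iff₀ (by linarith only [hc0, hc1, hL1])]
    have e7 : Real.log ((1 + A) * L + 2) ≤ 2 * Real.sqrt ((1 + A) * L + 2) :=
      log_sqrt_le (by
        have : (0 : ℝ) ≤ (1 + A) * L := by positivity
        linarith only [this])
    have e8 := hL₂ L l2
    have e9 : C * (1 + Λ) * Real.log ((1 + A) * L + 2) ≤
        C * (1 + Λ) * (2 * Real.sqrt ((1 + A) * L + 2)) :=
      mul_le_mul_of_nonneg_left e7 (by positivity)
    linarith only [e8, e9]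
  have e10 : C * (1 + Λ) * Real.log (((L * N : ℕ) : ℝ) + 2) ^ 2 ≤ ε / 16 * ((L * N : ℕ) : ℝ) := by
    have e11 : Real.log (((L * N : ℕ) : ℝ) + 2) ^ 2 ≤ 16 * Real.sqrt (((L * N : ℕ) : ℝ) + 2) :=
      log_sq_le (by
        have : (0 : ℝ) ≤ ((L * N : ℕ) : ℝ) := Nat.cast_nonneg _
        linarith only)
    have e12 := hJ₂ (L * N) ((le_max_left _ _).trans hJ1)
    rw [one_mul] at e12
    have e13 : C * (1 + Λ) * Real.log (((L * N : ℕ) : ℝ) + 2) ^ 2 ≤
        C * (1 + Λ) * (16 * Real.sqrt (((L * N : ℕ) : ℝ) + 2)) :=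
      mul_le_mul_of_nonneg_left e11 (by positivity)
    linarith only [e12, e13]
  have e14 : C ≤ ε / 16 * ((L * N : ℕ) : ℝ) := by
    have e15 : 16 * C / ε ≤ ((L * N : ℕ) : ℝ) :=
      hJ₃.trans (by exact_mod_cast (le_max_right _ _).trans hJ1)
    rw [div_le_iff₀ hε] at e15
    linarith only [e15]
  rw [hLN] at *
  have e16 : (2 * κ + C * (1 + Λ) * Real.log ((1 + A) * L + 2) / L) * (L * N) ≤
      (ε / 8 + ε / 8) * (L * N) := mul_le_mul_of_nonneg_right (by linarith only [hκε, e6]) (by positivity)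
  have e17 : 0 ≤ ε * (L * N) := by positivity
  linarith only [hC, h1, h2, e2, e10, e14, e16]

/-- The scales. -/
def sc (f : ℕ → ℕ) : ℕ → ℕ
  | 0 => 1
  | n + 1 => max 1 (f (sc f n)) * sc f n

lemma sc_pos (f : ℕ → ℕ) (n : ℕ) : 0 < sc f n := by
  induction n with
  | zero => exact Nat.one_pos
  | succ n ih => exact Nat.mul_pos (lt_of_lt_of_le Nat.one_pos (le_max_left _ _)) ih

lemma sc_dvd (f : ℕ → ℕ) {i j : ℕ} (h : i ≤ j) : sc f i ∣ sc f j := by
  induction j with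
  | zero =>
    have : i = 0 := by omega
    rw [this]
  | succ j ih =>
    rcases Nat.lt_or_ge i (j + 1) with h1 | h1
    · exact (ih (by omega)).trans (Dvd.intro_left _ rfl)
    · have : i = j + 1 := by omega
      rw [this]

/-- **The joint.** The label inequality for times with live windows implies the maximal entropy
inequality. -/
theorem mb_of_lkg {b : ℝ} (hb : 1 ≤ b) (hB : BASGStmt) (hSTEP : STEPUStmt) (hTOW : TOWUStmt)
    (hSTA : STAStmt) (hFIN : FINStmt) (hLKG : Pool.LK.LKG 2 b) : Pool.KFIN.MB 2 3 := by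
  classical
  have hl2 : 0 < Real.log 2 := Real.log_pos (by norm_num)
  have hl1 : Real.log 2 < 0.7 := by
    have := Real.log_two_lt_d9
    linarith only [hl2, this]
  refine mb_of_mult (by norm_num) fun ε hε => ?_
  obtain ⟨x, hx, r, hr, hK⟩ := scl hb hB hSTEP hTOW hSTA hFIN hLKG (show 0 < ε / 2 by positivity)
  choose! f hf using hK
  set M : ℕ → ℕ := fun i => max 1 (f (sc f i)) with hM
  have hM0 : ∀ i, 0 < M i := fun i => lt_of_lt_of_le Nat.one_pos (le_max_left _ _)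
  have hstep : ∀ i, sc f (i + 1) = M i * sc f i := fun _ => rfl
  have hML : ∀ i, f (sc f i) ≤ M i * sc f i := fun i =>
    (le_max_right 1 _).trans (Nat.le_mul_of_pos_right _ (sc_pos f i))
  have hJ : ∀ i, ∃ J₁ : ℕ, ∀ N J : ℕ, J = M i * sc f i * N → J₁ ≤ J → ∀ F : Fam 2 J,
      CH F.p (F.D J) F.Z + (J : ℝ) * Real.log 2 - CH F.p (fun ω => (F.X J ω, F.T ω)) F.Z ≤
        3 * ((J : ℝ) * Real.log 2 - CH F.p F.T (fun ω => (F.l ω, F.Z ω))) + ε / 2 * J +
        3 * (((M i * sc f i : ℕ) : ℝ) * Real.log 2) * ∑ j ∈ range N, Ex F.p (fun ω =>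
          ind (2 * x ≤ rk F.p (Vw F) (j * (M i * sc f i)) (M i * sc f i) ω ∧
            r ≤ low F.p (Vw F) (j * (M i * sc f i)) (M i) (sc f i) x ω)) := fun i =>
    hf (sc f i) (sc_pos f i) (M i) (hM0 i) (hML i)
  choose J₁ hJ₁ using hJ
  obtain ⟨Ns, hNs⟩ := exists_nat_ge (6 / (ε * r * x ^ 2))
  set S := Ns + 1 with hS
  have hS0 : (0 : ℝ) < S := by
    rw [hS]
    positivity
  have hSb : 6 / (ε * r * x ^ 2) ≤ S := by
    rw [hS]
    push_cast
    linarith only [hl2, hl1, hNs]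
  refine ⟨sc f S, sc_pos f S, (∑ i ∈ range S, J₁ i) + 1, fun n hn => ?_⟩
  have hn1 : 1 ≤ n := (Nat.le_add_left _ _).trans hn
  obtain ⟨J, hJdef⟩ : ∃ J, J = sc f S * n := ⟨_, rfl⟩
  rw [← hJdef]
  intro F
  have hJpos : 0 < J := by
    rw [hJdef]
    exact Nat.mul_pos (sc_pos f S) hn1
  have hJge : ∀ i < S, J₁ i ≤ J := by
    intro i hi
    have h1 := Finset.single_le_sum (f := J₁) (fun _ _ => Nat.zero_le _) (mem_range.2 hi)
    calc J₁ i ≤ n := by omega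
      _ ≤ sc f S * n := Nat.le_mul_of_pos_left n (sc_pos f S)
      _ = J := hJdef.symm
  set B : ℕ → ℕ := fun i => max 1 (J / sc f i) with hBdef
  have hB0 : ∀ i, 0 < B i := fun i => lt_of_lt_of_le Nat.one_pos (le_max_left _ _)
  have hdv : ∀ i ≤ S, sc f i ∣ J := fun i hi => (sc_dvd f hi).trans (Dvd.intro _ hJdef.symm)
  have hBv : ∀ i ≤ S, B i = J / sc f i := by
    intro i hi
    have h1 : 1 ≤ J / sc f i := by
      rw [Nat.le_div_iff_mul_le (sc_pos f i), one_mul]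
      exact Nat.le_of_dvd hJpos (hdv i hi)
    exact max_eq_right h1
  have hBM : ∀ i < S, B i = B (i + 1) * M i := by
    intro i hi
    rw [hBv i hi.le, hBv (i + 1) hi]
    obtain ⟨k, hk⟩ := hdv (i + 1) hi
    have h1 := sc_pos f i
    have h2 := sc_pos f (i + 1)
    rw [hk, Nat.mul_div_cancel_left _ h2, hstep i]
    have e : M i * sc f i * k = sc f i * (k * M i) := by ring
    rw [e, Nat.mul_div_cancel_left _ h1]
  obtain ⟨i, hi, hbad⟩ := exists_scale F.isLaw (V := Vw F) (vw_det F) (L := Real.log 2)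
    (fun i ω hω => by
      have := vw_hk F i 1 hω
      push_cast at this
      linarith only [this]) (sc f) M B (sc_pos f) hM0 hB0 hstep (N := S) (by omega) hBM hx hr
  have hLB : J = M i * sc f i * B (i + 1) := by
    rw [hBv (i + 1) hi, ← hstep i, Nat.mul_div_cancel' (hdv (i + 1) hi)]
  have h1 := hJ₁ i (B (i + 1)) J hLB (hJge i hi) F
  rw [hstep i] at hbad
  set bad := ∑ w ∈ range (B (i + 1)), Ex F.p (fun ω => ind
      (2 * x ≤ rk F.p (Vw F) (w * (M i * sc f i)) (M i * sc f i) ω ∧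
        r ≤ low F.p (Vw F) (w * (M i * sc f i)) (M i) (sc f i) x ω)) with hbaddef
  have h2 : 3 * (((M i * sc f i : ℕ) : ℝ) * Real.log 2) * bad ≤ ε / 2 * J := by
    have h3 : 3 * (((M i * sc f i : ℕ) : ℝ) * Real.log 2) * bad ≤
        3 * (((M i * sc f i : ℕ) : ℝ) * Real.log 2) *
          (B (i + 1) * (Real.log 2 ^ 2 / (S * r * x ^ 2))) :=
      mul_le_mul_of_nonneg_left hbad (by positivity)
    have h4 : (J : ℝ) = ((M i * sc f i : ℕ) : ℝ) * B (i + 1) := by exact_mod_cast hLB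
    have h5 : 3 * (((M i * sc f i : ℕ) : ℝ) * Real.log 2) *
          (B (i + 1) * (Real.log 2 ^ 2 / (S * r * x ^ 2))) =
        (3 * Real.log 2 ^ 3 / (S * r * x ^ 2)) * J := by
      rw [h4]
      ring
    rw [h5] at h3
    refine h3.trans (mul_le_mul_of_nonneg_right ?_ (Nat.cast_nonneg J))
    rw [div_le_iff₀ (by positivity)]
    rw [div_le_iff₀ (by positivity)] at hSb
    have h6 : Real.log 2 ^ 3 ≤ 1 := by
      have := pow_le_pow_left₀ hl2.le (show Real.log 2 ≤ 1 by linarith only [hl2, hl1]) 3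
      rwa [one_pow] at this
    nlinarith only [hSb, h6]
  linarith only [h1, h2]

end Pool.KMF
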