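import Pool.Agent.H58.KMF.Nbr

/-!
# The mean number of the dead windows of a law mixed with the uniform law
-/

set_option autoImplicit false

namespace Pool.KMF

open Finset Real
open Pool.KA

/-- The mean of a law on the strings of `L` digits and the uniform law. -/
noncomputable def mx (lam : ℕ → ℝ) (L t : ℕ) : ℝ := (lam t + 1 / 2 ^ L) / 2

lemma mx_nonneg {lam : ℕ → ℝ} (h : ∀ t, 0 ≤ lam t) (L t : ℕ) : 0 ≤ mx lam L t := by
  unfold mx
  have := h t
  positivity

lemma mx_ge {lam : ℕ → ℝ} (h : ∀ t, 0 ≤ lam t) (L t : ℕ) : 1 / 2 ^ (L + 1) ≤ mx lam L t := by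
  unfold mx
  have h1 := h t
  have e : (1 : ℝ) / 2 ^ (L + 1) = 1 / 2 ^ L / 2 := by
    rw [pow_succ]
    field_simp
  rw [e]
  linarith

lemma mx_sum {lam : ℕ → ℝ} {L : ℕ} (h : ∑ t ∈ range (2 ^ L), lam t ≤ 1) :
    ∑ t ∈ range (2 ^ L), mx lam L t ≤ 1 := by
  unfold mx
  rw [← Finset.sum_div, Finset.sum_add_distrib, Finset.sum_const, Finset.card_range, nsmul_eq_mul]
  have e : ((2 ^ L : ℕ) : ℝ) * (1 / 2 ^ L) = 1 := by
    push_cast
    field_simp
  rw [e]
  linarith

lemma le_mx (lam : ℕ → ℝ) (L t : ℕ) : lam t ≤ 2 * mx lam L t := by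
  unfold mx
  have : (0 : ℝ) < 1 / 2 ^ L := by positivity
  linarith

lemma lowk_mx (lam : ℕ → ℝ) (L a s : ℕ) :
    lowk (mx lam L) a s = (lowk lam a s + 2 ^ a * (1 / 2 ^ L)) / 2 := by
  unfold lowk mx
  rw [← Finset.sum_div, Finset.sum_add_distrib, Finset.sum_const, Finset.card_range, nsmul_eq_mul]
  push_cast
  rfl

lemma pm_mx (lam : ℕ → ℝ) (L v t : ℕ) :
    pm (mx lam L) L v t = (pm lam L v t + 2 ^ (L - v) * (1 / 2 ^ L)) / 2 := by
  rw [pm_eq, lowk_mx]
  rfl

/-- A window which is live for the law is live for the mixture. -/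
lemma own_mx {lam : ℕ → ℝ} {L v K t : ℕ} (hv : v + K ≤ L) {η : ℝ} (hK : 1 / 2 ^ K ≤ η)
    (h : pm lam L (v + K) t ≤ η * pm lam L v t) :
    pm (mx lam L) L (v + K) t ≤ η * pm (mx lam L) L v t := by
  rw [pm_mx, pm_mx]
  have e : (2 : ℝ) ^ (L - v) = 2 ^ (L - (v + K)) * 2 ^ K := by
    rw [← pow_add]
    congr 1
    omega
  have h1 : (2 : ℝ) ^ (L - (v + K)) * (1 / 2 ^ L) ≤ η * (2 ^ (L - v) * (1 / 2 ^ L)) := by
    rw [e]
    have h2 : 1 ≤ η * 2 ^ K := by
      rw [div_le_iff₀ (by positivity)] at hK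
      exact hK
    have h3 : (0 : ℝ) ≤ 2 ^ (L - (v + K)) * (1 / 2 ^ L) := by positivity
    nlinarith
  linarith

/-- **The mean number of the dead windows of the mixture.** -/
theorem nbad_mx {lam : ℕ → ℝ} (h0 : ∀ t, 0 ≤ lam t) {L K R M : ℕ}
    (hs : ∑ t ∈ range (2 ^ L), lam t ≤ 1) (hL : L = M * K) (hK : 0 < K) (hR : 0 < R)
    {c η η' : ℝ} (hc : 0 ≤ c) (hc1 : c ≤ 1) (hη : 0 < η) (hη' : (1 - c) ^ R ≤ η')
    (hη2 : 1 / 2 ^ ((2 * R + 1) * K) ≤ η') :
    ∑ t ∈ range (2 ^ L), lam t * (nbad (mx lam L) L ((2 * R + 1) * K) η t 0 L : ℝ) ≤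
      2 * K * ∑ t ∈ range (2 ^ L), lam t * (dead (fun v => pm lam L v t) c K M : ℝ) +
        6 * (η' / η) * L := by
  classical
  set K' := (2 * R + 1) * K with hK'
  have hη0 : 0 ≤ η' := le_trans (by positivity) hη2
  set ν := mx lam L with hν
  have hν0 : ∀ t, 0 ≤ ν t := fun t => mx_nonneg h0 L t
  set B : ℕ → Finset ℕ := fun t => (range (M * K)).filter fun v => v + K' ≤ M * K ∧
    η' * pm lam L v t < pm lam L (v + K') t with hB
  set φ : ℕ → ℕ → ℝ := fun v t => ind (v + K' ≤ L ∧ (pm ν L (v + K') t ≤ η' * pm ν L v t ∧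
    η * pm ν L v t < pn ν L v K' t)) with hφ
  -- the two kinds of dead windows
  have h1 : ∀ t, (nbad ν L K' η t 0 L : ℝ) ≤ (B t).card + ∑ v ∈ range L, φ v t := by
    intro t
    have e1 : (nbad ν L K' η t 0 L : ℝ) =
        ∑ v ∈ range L, ind (v + K' ≤ L ∧ η * pm ν L v t < pn ν L v K' t) := by
      unfold nbad
      rw [Finset.card_filter, ← Finset.range_eq_Ico]
      push_cast
      refine Finset.sum_congr rfl fun v _ => ?_
      by_cases hh : v + K' ≤ L ∧ η * pm ν L v t < pn ν L v K' t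
      · rw [if_pos hh, ind_true hh]
      · rw [if_neg hh, ind_false hh]
    have e2 : ((B t).card : ℝ) = ∑ v ∈ range L, ind (v + K' ≤ L ∧
        η' * pm lam L v t < pm lam L (v + K') t) := by
      rw [hB]
      dsimp only
      rw [Finset.card_filter, ← hL]
      push_cast
      refine Finset.sum_congr rfl fun v _ => ?_
      by_cases hh : v + K' ≤ L ∧ η' * pm lam L v t < pm lam L (v + K') t
      · rw [if_pos hh, ind_true hh]
      · rw [if_neg hh, ind_false hh]
    rw [e1, e2, ← Finset.sum_add_distrib]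
    refine Finset.sum_le_sum fun v _ => ?_
    by_cases hb : v + K' ≤ L ∧ η * pm ν L v t < pn ν L v K' t
    · rw [ind_true hb]
      by_cases ho : η' * pm lam L v t < pm lam L (v + K') t
      · rw [ind_true ⟨hb.1, ho⟩]
        have : 0 ≤ φ v t := ind_nonneg _
        linarith
      · have h2 := own_mx hb.1 hη2 (not_lt.1 ho)
        have h3 : φ v t = 1 := ind_true ⟨hb.1, h2, hb.2⟩
        rw [h3]
        have := ind_nonneg (v + K' ≤ L ∧ η' * pm lam L v t < pm lam L (v + K') t)
        linarith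
    · rw [ind_false hb]
      have h2 : 0 ≤ φ v t := ind_nonneg _
      have := ind_nonneg (v + K' ≤ L ∧ η' * pm lam L v t < pm lam L (v + K') t)
      linarith
  have h2 : ∀ t, ((B t).card : ℝ) ≤ 2 * K * dead (fun v => pm lam L v t) c K M := by
    intro t
    have := nbad_le_dead (G := fun v => pm lam L v t) (fun v => pm_nonneg h0 L v t)
      (fun v v' hvv => pm_anti h0 L t hvv) hc hc1 (K := K) (R := R) (M := M) hK hR hη'
    exact_mod_cast this
  have h3 : ∀ v ∈ range L, ∑ t ∈ range (2 ^ L), lam t * φ v t ≤ 6 * (η' / η) := by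
    intro v _
    by_cases hv : v + K' ≤ L
    · have h4 := nbr hν0 hv hη hη0
      have h5 : ∑ t ∈ range (2 ^ L), lam t * φ v t ≤
          ∑ t ∈ range (2 ^ L), 2 * (ν t * ind (pm ν L (v + K') t ≤ η' * pm ν L v t ∧
            η * pm ν L v t < pn ν L v K' t)) := by
        refine Finset.sum_le_sum fun t _ => ?_
        have e : φ v t = ind (pm ν L (v + K') t ≤ η' * pm ν L v t ∧
            η * pm ν L v t < pn ν L v K' t) := by
          by_cases hh : pm ν L (v + K') t ≤ η' * pm ν L v t ∧ η * pm ν L v t < pn ν L v K' t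
          · rw [ind_true hh]
            exact ind_true ⟨hv, hh⟩
          · rw [ind_false hh]
            exact ind_false fun h => hh h.2
        rw [e, ← mul_assoc]
        exact mul_le_mul_of_nonneg_right (le_mx lam L t) (ind_nonneg _)
      rw [← Finset.mul_sum] at h5
      have h6 : 3 * (η' / η) * ∑ t ∈ range (2 ^ L), ν t ≤ 3 * (η' / η) * 1 :=
        mul_le_mul_of_nonneg_left (mx_sum hs) (by positivity)
      linarith
    · have e : ∀ t ∈ range (2 ^ L), lam t * φ v t = 0 := by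
        intro t _
        have : φ v t = 0 := ind_false fun h => hv h.1
        rw [this, mul_zero]
      rw [Finset.sum_congr rfl e]
      simp only [Finset.sum_const_zero]
      positivity
  calc ∑ t ∈ range (2 ^ L), lam t * (nbad ν L K' η t 0 L : ℝ) ≤
      ∑ t ∈ range (2 ^ L), (2 * K * (lam t * (dead (fun v => pm lam L v t) c K M : ℝ)) +
        ∑ v ∈ range L, lam t * φ v t) := by
        refine Finset.sum_le_sum fun t _ => ?_
        have h4 := mul_le_mul_of_nonneg_left ((h1 t).trans (add_le_add (h2 t) le_rfl)) (h0 t)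
        refine h4.trans (le_of_eq ?_)
        rw [← Finset.mul_sum]
        ring
    _ = 2 * K * ∑ t ∈ range (2 ^ L), lam t * (dead (fun v => pm lam L v t) c K M : ℝ) +
        ∑ v ∈ range L, ∑ t ∈ range (2 ^ L), lam t * φ v t := by
        rw [Finset.sum_add_distrib, ← Finset.mul_sum, Finset.sum_comm]
    _ ≤ 2 * K * ∑ t ∈ range (2 ^ L), lam t * (dead (fun v => pm lam L v t) c K M : ℝ) +
        ∑ _v ∈ range L, 6 * (η' / η) := by
        have := Finset.sum_le_sum h3
        linarith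
    _ = _ := by
        rw [Finset.sum_const, Finset.card_range, nsmul_eq_mul]
        ring

end Pool.KMF
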