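import Pool.Agent.H58.KMF.Energy
import Pool.Agent.H85.TG.Ker

/-!
# Windows which are live on a mesh are live everywhere
-/

set_option autoImplicit false

namespace Pool.KMF

open Finset Real

open Classical in
/-- The number of the dead windows of the mesh of step `K` on the path with masses `G`. -/
noncomputable def dead (G : ℕ → ℝ) (c : ℝ) (K M : ℕ) : ℕ :=
  ((range M).filter fun j => (1 - c) * G (j * K) < G ((j + 1) * K)).card

/-- Along a run of windows with at least `r` live ones. -/
lemma live_pow {G : ℕ → ℝ} (h0 : ∀ v, 0 ≤ G v) (hG : ∀ v v', v ≤ v' → G v' ≤ G v) {c : ℝ}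
    (hc : 0 ≤ c) (hc1 : c ≤ 1) (K a : ℕ) (n : ℕ) :
    G ((a + n) * K) ≤ (1 - c) ^ (n - ((range n).filter fun i =>
      (1 - c) * G ((a + i) * K) < G ((a + i + 1) * K)).card) * G (a * K) := by
  classical
  induction n with
  | zero => simp
  | succ n ih =>
    have hcard : ((range n).filter fun i =>
        (1 - c) * G ((a + i) * K) < G ((a + i + 1) * K)).card ≤ n := by
      have := Finset.card_filter_le (range n) fun i =>
        (1 - c) * G ((a + i) * K) < G ((a + i + 1) * K)
      rwa [Finset.card_range] at this
    rw [Finset.range_add_one, Finset.filter_insert]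
    split_ifs with hcase
    · rw [Finset.card_insert_of_notMem (by simp)]
      have e1 : n + 1 - (((range n).filter fun i =>
        (1 - c) * G ((a + i) * K) < G ((a + i + 1) * K)).card + 1) =
        n - ((range n).filter fun i =>
          (1 - c) * G ((a + i) * K) < G ((a + i + 1) * K)).card := by omega
      rw [e1]
      refine le_trans (hG _ _ ?_) ih
      exact Nat.mul_le_mul_right K (by omega)
    · have e1 : n + 1 - ((range n).filter fun i =>
        (1 - c) * G ((a + i) * K) < G ((a + i + 1) * K)).card =
        (n - ((range n).filter fun i =>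
          (1 - c) * G ((a + i) * K) < G ((a + i + 1) * K)).card) + 1 := by omega
      rw [e1, pow_succ]
      push Not at hcase
      have e2 : a + (n + 1) = a + n + 1 := by ring
      rw [e2]
      refine hcase.trans ?_
      have h1 := mul_le_mul_of_nonneg_left ih (show (0 : ℝ) ≤ 1 - c by linarith)
      refine h1.trans (le_of_eq ?_)
      ring

open Classical in
/-- **From the mesh to all windows.** If a window of `K` digits of the mesh is live when the
conditional mass of its digits is at most `1 - c`, and `(1 - c) ^ R ≤ η`, then the windows of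
`(2 R + 1) K` digits whose digits have conditional mass more than `η` are few. -/
theorem nbad_le_dead {G : ℕ → ℝ} (h0 : ∀ v, 0 ≤ G v) (hG : ∀ v v', v ≤ v' → G v' ≤ G v) {c η : ℝ}
    (hc : 0 ≤ c) (hc1 : c ≤ 1) {K R M : ℕ} (hK : 0 < K) (hR : 0 < R) (hη : (1 - c) ^ R ≤ η) :
    ((range (M * K)).filter fun v => v + (2 * R + 1) * K ≤ M * K ∧
      η * G v < G (v + (2 * R + 1) * K)).card ≤ 2 * K * dead G c K M := by
  set D := (range M).filter fun j => (1 - c) * G (j * K) < G ((j + 1) * K) with hD
  set Bd := (range (M * K)).filter fun v => v + (2 * R + 1) * K ≤ M * K ∧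
      η * G v < G (v + (2 * R + 1) * K) with hBd
  have hdead : dead G c K M = D.card := rfl
  -- each bad window sees at least `R` dead windows of the mesh
  have key : ∀ v ∈ Bd, R ≤ ((range (2 * R)).filter fun i => (v + K - 1) / K + i ∈ D).card := by
    intro v hv
    obtain ⟨_, hv1, hv2⟩ := Finset.mem_filter.1 hv
    set a := (v + K - 1) / K with ha
    have ha1 : v ≤ a * K := by
      have := Nat.div_add_mod (v + K - 1) K
      have h2 := Nat.mod_lt (v + K - 1) hK
      rw [← ha] at this
      have h3 : K * a = a * K := mul_comm _ _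
      omega
    have ha2 : a * K ≤ v + K - 1 := Nat.div_mul_le_self _ _
    have ha3 : (a + 2 * R) * K ≤ v + (2 * R + 1) * K := by
      have e1 : (a + 2 * R) * K = a * K + 2 * R * K := by ring
      have e2 : (2 * R + 1) * K = 2 * R * K + K := by ring
      omega
    by_contra hcon
    push Not at hcon
    have hsub : ((range (2 * R)).filter fun i =>
        (1 - c) * G ((a + i) * K) < G ((a + i + 1) * K)) ⊆
        (range (2 * R)).filter fun i => a + i ∈ D := by
      intro i hi
      obtain ⟨hi1, hi2⟩ := Finset.mem_filter.1 hi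
      refine Finset.mem_filter.2 ⟨hi1, Finset.mem_filter.2 ⟨?_, hi2⟩⟩
      have hi3 := mem_range.1 hi1
      rw [mem_range]
      by_contra hlt
      push Not at hlt
      have h4 : M * K ≤ (a + i) * K := Nat.mul_le_mul_right K hlt
      have h5 : (a + i) * K < (a + 2 * R) * K := Nat.mul_lt_mul_of_pos_right (by omega) hK
      omega
    have hcount := Finset.card_le_card hsub
    have hlp := live_pow h0 hG hc hc1 K a (2 * R)
    have hexp : R ≤ 2 * R - ((range (2 * R)).filter fun i =>
        (1 - c) * G ((a + i) * K) < G ((a + i + 1) * K)).card := by omega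
    have h6 : (1 - c) ^ (2 * R - ((range (2 * R)).filter fun i =>
        (1 - c) * G ((a + i) * K) < G ((a + i + 1) * K)).card) ≤ (1 - c) ^ R :=
      pow_le_pow_of_le_one (by linarith) (by linarith) hexp
    have h7 : G (v + (2 * R + 1) * K) ≤ η * G v := by
      calc G (v + (2 * R + 1) * K) ≤ G ((a + 2 * R) * K) := hG _ _ ha3
        _ ≤ _ := hlp
        _ ≤ (1 - c) ^ R * G (a * K) := mul_le_mul_of_nonneg_right h6 (h0 _)
        _ ≤ η * G (a * K) := mul_le_mul_of_nonneg_right hη (h0 _)
        _ ≤ η * G v := mul_le_mul_of_nonneg_left (hG _ _ ha1)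
            (le_trans (pow_nonneg (by linarith) R) hη)
    linarith
  -- double counting
  have hsum1 : R * Bd.card ≤
      ∑ v ∈ Bd, ((range (2 * R)).filter fun i => (v + K - 1) / K + i ∈ D).card := by
    rw [mul_comm, ← smul_eq_mul, ← Finset.sum_const]
    exact Finset.sum_le_sum key
  have hsum2 : ∑ v ∈ Bd, ((range (2 * R)).filter fun i => (v + K - 1) / K + i ∈ D).card =
      ∑ i ∈ range (2 * R), ∑ d ∈ D, (Bd.filter fun v => (v + K - 1) / K + i = d).card := by
    have e1 : ∀ v ∈ Bd, ((range (2 * R)).filter fun i => (v + K - 1) / K + i ∈ D).card =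
        ∑ i ∈ range (2 * R), ∑ d ∈ D, if (v + K - 1) / K + i = d then 1 else 0 := by
      intro v _
      rw [Finset.card_filter]
      refine Finset.sum_congr rfl fun i _ => ?_
      rw [Finset.sum_ite_eq]
    rw [Finset.sum_congr rfl e1, Finset.sum_comm]
    refine Finset.sum_congr rfl fun i _ => ?_
    rw [Finset.sum_comm]
    refine Finset.sum_congr rfl fun d _ => ?_
    rw [Finset.card_filter]
  have hfib : ∀ i d, (Bd.filter fun v => (v + K - 1) / K + i = d).card ≤ K := by
    intro i d
    by_cases hid : i ≤ d
    · have hsub : (Bd.filter fun v => (v + K - 1) / K + i = d) ⊆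
          Finset.Ico ((d - i) * K + 1 - K) ((d - i) * K + 1) := by
        intro v hv
        obtain ⟨_, hv2⟩ := Finset.mem_filter.1 hv
        have h1 := Nat.div_add_mod (v + K - 1) K
        have h2 := Nat.mod_lt (v + K - 1) hK
        have h3 : (v + K - 1) / K = d - i := by omega
        rw [h3] at h1
        have h4 : K * (d - i) = (d - i) * K := mul_comm _ _
        rw [Finset.mem_Ico]
        omega
      refine (Finset.card_le_card hsub).trans ?_
      rw [Nat.card_Ico]
      have hx : ∀ x : ℕ, x + 1 - (x + 1 - K) ≤ K := by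
        intro x
        omega
      exact hx _
    · have : (Bd.filter fun v => (v + K - 1) / K + i = d) = ∅ := by
        rw [Finset.filter_eq_empty_iff]
        intro v _ h
        exact hid (h ▸ Nat.le_add_left _ _)
      rw [this]
      simp
  have hsum3 : ∑ i ∈ range (2 * R), ∑ d ∈ D, (Bd.filter fun v => (v + K - 1) / K + i = d).card ≤
      2 * R * (D.card * K) := by
    have : ∀ i ∈ range (2 * R), ∑ d ∈ D, (Bd.filter fun v => (v + K - 1) / K + i = d).card ≤
        D.card * K := by
      intro i _
      refine (Finset.sum_le_sum fun d _ => hfib i d).trans ?_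
      rw [Finset.sum_const, smul_eq_mul]
    refine (Finset.sum_le_sum this).trans ?_
    rw [Finset.sum_const, Finset.card_range, smul_eq_mul]
  have hfin : R * Bd.card ≤ R * (2 * K * D.card) := by
    calc R * Bd.card ≤ _ := hsum1
      _ = _ := hsum2
      _ ≤ 2 * R * (D.card * K) := hsum3
      _ = R * (2 * K * D.card) := by ring
  rw [hdead]
  exact Nat.le_of_mul_le_mul_left hfin hR

end Pool.KMF
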