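import Pool.Agent.H58.KMF.Nbad

/-!
# Windows with heavy neighbours carry a small mass
-/

set_option autoImplicit false

namespace Pool.KMF

open Finset Real
open Pool.KA

/-- The sum of the masses of the neighbours. -/
lemma sum_nb {g : ℕ → ℝ} (hg : ∀ s, 0 ≤ g s) (n : ℕ) :
    ∑ s ∈ range n, ∑ r ∈ range n, (if r ≤ s + 1 ∧ s ≤ r + 1 then g r else 0) ≤
      3 * ∑ r ∈ range n, g r := by
  classical
  rw [Finset.sum_comm, Finset.mul_sum]
  refine Finset.sum_le_sum fun r _ => ?_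
  rw [← Finset.sum_filter, Finset.sum_const, nsmul_eq_mul]
  refine mul_le_mul_of_nonneg_right ?_ (hg r)
  have hsub : (range n).filter (fun s => r ≤ s + 1 ∧ s ≤ r + 1) ⊆ Finset.Icc (r - 1) (r + 1) := by
    intro s hs
    obtain ⟨_, h1, h2⟩ := Finset.mem_filter.1 hs
    rw [Finset.mem_Icc]
    omega
  have h1 := Finset.card_le_card hsub
  rw [Nat.card_Icc] at h1
  have h2 : r + 1 + 1 - (r - 1) ≤ 3 := by omega
  exact_mod_cast h1.trans h2

/-- The masses of a function, as a function of the subwindow. -/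
lemma sum_cells (ν φ : ℕ → ℝ) {L a : ℕ} (ha : a ≤ L) :
    ∑ t ∈ range (2 ^ L), ν t * φ (t / 2 ^ a) =
      ∑ s ∈ range (2 ^ (L - a)), lowk ν a s * φ s := by
  have e : 2 ^ L = 2 ^ (L - a) * 2 ^ a := by rw [← pow_add, Nat.sub_add_cancel ha]
  rw [e, sum_range_blocks]
  refine Finset.sum_congr rfl fun s _ => ?_
  unfold lowk
  rw [Finset.sum_mul]
  refine Finset.sum_congr rfl fun r hr => ?_
  have h1 : (s * 2 ^ a + r) / 2 ^ a = s := by
    rw [mul_comm, Nat.mul_add_div (by positivity), Nat.div_eq_of_lt (Finset.mem_range.1 hr),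
      add_zero]
  rw [h1]

/-- The mass of the subwindow and its neighbours, as a function of the subwindow. -/
noncomputable def pc (g : ℕ → ℝ) (K s : ℕ) : ℝ :=
  ∑ j ∈ range (2 ^ K), if s / 2 ^ K * 2 ^ K + j ≤ s + 1 ∧ s ≤ s / 2 ^ K * 2 ^ K + j + 1 then
    g (s / 2 ^ K * 2 ^ K + j) else 0

lemma pn_eq (μ : ℕ → ℝ) {J v K : ℕ} (hv : v + K ≤ J) (t : ℕ) :
    pn μ J v K t = pc (lowk μ (J - (v + K))) K (t / 2 ^ (J - (v + K))) := by
  unfold pn pc
  have e : t / 2 ^ (J - (v + K)) / 2 ^ K = t / 2 ^ (J - v) := by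
    rw [Nat.div_div_eq_div_mul, ← pow_add]
    congr 2
    omega
  rw [e]

lemma pm_eq' (μ : ℕ → ℝ) {J v K : ℕ} (hv : v + K ≤ J) (t : ℕ) :
    pm μ J v t = lowk (lowk μ (J - (v + K))) K (t / 2 ^ (J - (v + K)) / 2 ^ K) := by
  have e : t / 2 ^ (J - (v + K)) / 2 ^ K = t / 2 ^ (J - v) := by
    rw [Nat.div_div_eq_div_mul, ← pow_add]
    congr 2
    omega
  have e2 : J - (v + K) + K = J - v := by omega
  rw [e, lowk_lowk, e2]
  rfl

/-- The sum of the masses with the neighbours. -/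
lemma sum_pc {g : ℕ → ℝ} (hg : ∀ s, 0 ≤ g s) (n K : ℕ) :
    ∑ s ∈ range (2 ^ (n + K)), pc g K s ≤ 3 * ∑ s ∈ range (2 ^ (n + K)), g s := by
  classical
  refine le_trans (Finset.sum_le_sum fun s hs => ?_) (sum_nb hg (2 ^ (n + K)))
  unfold pc
  set c := s / 2 ^ K * 2 ^ K with hc
  have hinj : ∀ x ∈ range (2 ^ K), ∀ y ∈ range (2 ^ K), c + x = c + y → x = y := by
    intro x _ y _ h
    omega
  have h1 : ∑ j ∈ range (2 ^ K), (if c + j ≤ s + 1 ∧ s ≤ c + j + 1 then g (c + j) else 0) =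
      ∑ r ∈ (range (2 ^ K)).image (fun j => c + j), (if r ≤ s + 1 ∧ s ≤ r + 1 then g r else 0) := by
    rw [Finset.sum_image hinj]
  rw [h1]
  refine Finset.sum_le_sum_of_subset_of_nonneg ?_ ?_
  · intro r hr
    obtain ⟨j, hj, rfl⟩ := Finset.mem_image.1 hr
    rw [Finset.mem_range] at hj hs ⊢
    have h2 : s / 2 ^ K < 2 ^ n := by
      rw [Nat.div_lt_iff_lt_mul (by positivity), ← pow_add]
      exact hs
    have h3 : c + 2 ^ K ≤ 2 ^ (n + K) := by
      rw [hc, pow_add]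
      calc s / 2 ^ K * 2 ^ K + 2 ^ K = (s / 2 ^ K + 1) * 2 ^ K := by ring
        _ ≤ 2 ^ n * 2 ^ K := Nat.mul_le_mul_right _ h2
    omega
  · intro r _ _
    split_ifs
    · exact hg r
    · exact le_rfl

/-- **Heavy neighbours.** The strings whose own subwindow is light but whose neighbours are heavy
have a small mass. -/
theorem nbr {ν : ℕ → ℝ} (hν : ∀ t, 0 ≤ ν t) {L v K : ℕ} (hv : v + K ≤ L) {η η' : ℝ} (hη : 0 < η)
    (hη' : 0 ≤ η') :
    ∑ t ∈ range (2 ^ L), ν t * ind (pm ν L (v + K) t ≤ η' * pm ν L v t ∧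
      η * pm ν L v t < pn ν L v K t) ≤ 3 * (η' / η) * ∑ t ∈ range (2 ^ L), ν t := by
  classical
  set a := L - (v + K) with ha
  set g := lowk ν a with hg
  have hg0 : ∀ s, 0 ≤ g s := fun s => lowk_nonneg hν _ _
  have haL : a ≤ L := Nat.sub_le _ _
  have hLa : L - a = v + K := by omega
  set φ : ℕ → ℝ := fun s => ind (g s ≤ η' * lowk g K (s / 2 ^ K) ∧
    η * lowk g K (s / 2 ^ K) < pc g K s) with hφ
  have h1 : ∀ t, ind (pm ν L (v + K) t ≤ η' * pm ν L v t ∧ η * pm ν L v t < pn ν L v K t) =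
      φ (t / 2 ^ a) := by
    intro t
    rw [pn_eq ν hv t, pm_eq' ν hv t]
    rfl
  simp only [h1]
  rw [sum_cells ν φ haL, hLa]
  have h2 : ∀ s ∈ range (2 ^ (v + K)), g s * φ s ≤ η' / η * pc g K s := by
    intro s _
    have hpc : 0 ≤ pc g K s := by
      unfold pc
      refine Finset.sum_nonneg fun j _ => ?_
      split_ifs
      · exact hg0 _
      · exact le_rfl
    have hq : 0 ≤ η' / η := div_nonneg hη' hη.le
    by_cases h : g s ≤ η' * lowk g K (s / 2 ^ K) ∧ η * lowk g K (s / 2 ^ K) < pc g K s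
    · rw [hφ]
      dsimp only
      rw [ind_true h, mul_one]
      refine h.1.trans ?_
      rw [div_mul_eq_mul_div, le_div_iff₀ hη]
      calc η' * lowk g K (s / 2 ^ K) * η = η' * (η * lowk g K (s / 2 ^ K)) := by ring
        _ ≤ η' * pc g K s := mul_le_mul_of_nonneg_left h.2.le hη'
    · rw [hφ]
      dsimp only
      rw [ind_false h, mul_zero]
      exact mul_nonneg hq hpc
  refine (Finset.sum_le_sum h2).trans ?_
  rw [← Finset.mul_sum]
  have h3 := sum_pc hg0 v K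
  have h4 : ∑ s ∈ range (2 ^ (v + K)), g s = ∑ t ∈ range (2 ^ L), ν t := by
    have := sum_lowk ν haL
    rw [hLa] at this
    exact this
  rw [h4] at h3
  calc η' / η * ∑ s ∈ range (2 ^ (v + K)), pc g K s ≤ η' / η * (3 * ∑ t ∈ range (2 ^ L), ν t) :=
        mul_le_mul_of_nonneg_left h3 (div_nonneg hη' hη.le)
    _ = _ := by ring

end Pool.KMF
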